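import Mathlib

/-! Summation by parts of an oscillating weight against a sequence with a logarithmic saving. -/

set_option autoImplicit false

namespace Pool.Agent.Lib.MP_3ba922_nt.SB

open Finset Filter Topology Real

/-- the mean-zero profile -/
noncomputable def gg (x : ℝ) : ℝ := 1 / π - max 0 (-cos x)

/-- its primitive -/
noncomputable def GG (x : ℝ) : ℝ := ∫ y in (0 : ℝ)..x, gg y

theorem gg_cont : Continuous gg := by unfold gg; fun_prop

theorem gg_abs (x : ℝ) : |gg x| ≤ 1 := by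
  have h1 : 1 / π ≤ 1 := by rw [div_le_one pi_pos]; linarith [pi_gt_three]
  have h2 : 0 ≤ 1 / π := by positivity
  have h3 := le_max_left 0 (-cos x)
  have h4 : max 0 (-cos x) ≤ 1 := max_le zero_le_one (by linarith [neg_one_le_cos x])
  rw [gg, abs_le]; constructor <;> linarith

theorem gg_lip (x y : ℝ) : |gg x - gg y| ≤ |x - y| := by
  have h1 := abs_max_sub_max_le_abs (-cos y) (-cos x) 0
  have h2 := abs_cos_sub_cos_le x y
  rw [max_comm _ 0, max_comm _ 0, show -cos y - -cos x = cos x - cos y by ring] at h1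
  rw [gg, gg, show 1 / π - max 0 (-cos x) - (1 / π - max 0 (-cos y))
    = max 0 (-cos y) - max 0 (-cos x) by ring]
  exact h1.trans h2

theorem GG_sub (a b : ℝ) : GG b - GG a = ∫ y in a..b, gg y :=
  intervalIntegral.integral_interval_sub_left (gg_cont.intervalIntegrable _ _)
    (gg_cont.intervalIntegrable _ _)

theorem GG_cont : Continuous GG :=
  intervalIntegral.continuous_primitive (fun a b => gg_cont.intervalIntegrable a b) 0

theorem GG_per : Function.Periodic GG (2 * π) := fun x => by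
  have hpi := pi_pos
  have hc : Continuous fun x => max 0 (-cos x) := by fun_prop
  have hp : Function.Periodic gg (2 * π) := fun y => by rw [gg, gg, cos_add_two_pi]
  have hI : ∫ x in (-(π / 2))..(3 * π / 2), max 0 (-cos x) = 2 := by
    rw [← intervalIntegral.integral_add_adjacent_intervals (b := π / 2)
      (hc.intervalIntegrable _ _) (hc.intervalIntegrable _ _),
      intervalIntegral.integral_congr (g := fun _ => 0) (fun x hx => by
        rw [Set.uIcc_of_le (by linarith)] at hx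
        exact max_eq_left (by linarith [cos_nonneg_of_mem_Icc hx])),
      intervalIntegral.integral_congr (a := π / 2) (g := fun x => -cos x) (fun x hx => by
        rw [Set.uIcc_of_le (by linarith)] at hx
        exact max_eq_right
          (by linarith [cos_nonpos_of_pi_div_two_le_of_le hx.1 (by linarith [hx.2])])),
      intervalIntegral.integral_neg, integral_cos, show 3 * π / 2 = π / 2 + π by ring, sin_add_pi,
      sin_pi_div_two]
    norm_num
  rw [← sub_eq_zero, GG_sub, hp.intervalIntegral_add_eq x (-(π / 2)),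
    show -(π / 2) + 2 * π = 3 * π / 2 by ring]
  unfold gg
  rw [intervalIntegral.integral_sub (continuous_const.intervalIntegrable _ _)
    (hc.intervalIntegrable _ _), hI, intervalIntegral.integral_const, smul_eq_mul]
  field_simp
  ring

theorem GG_bdd : ∃ B : ℝ, 0 ≤ B ∧ ∀ x, |GG x| ≤ B := by
  obtain ⟨B, hB⟩ := isBounded_iff_forall_norm_le.1
    (GG_per.isBounded_of_continuous (by positivity) GG_cont)
  exact ⟨B, (norm_nonneg _).trans (hB _ ⟨0, rfl⟩), fun x => hB _ ⟨x, rfl⟩⟩

theorem GG_taylor (a b : ℝ) (h : a ≤ b) : |GG b - GG a - gg a * (b - a)| ≤ (b - a) ^ 2 := by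
  have h1 := intervalIntegral.norm_integral_le_of_norm_le_const (a := a) (b := b)
    (f := fun y => gg y - gg a) (C := b - a) fun y hy => by
      rw [Set.uIoc_of_le h] at hy
      refine (gg_lip y a).trans ?_
      rw [abs_of_nonneg (by linarith [hy.1])]
      linarith [hy.2]
  rw [intervalIntegral.integral_sub (gg_cont.intervalIntegrable _ _)
    (continuous_const.intervalIntegrable _ _), intervalIntegral.integral_const, smul_eq_mul,
    abs_of_nonneg (by linarith), ← GG_sub, mul_comm _ (gg a), ← sq] at h1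
  exact h1

theorem psi_step (σ L d : ℝ) (hσ : 0 ≤ σ) (hL : 1 ≤ L) (hd : 0 ≤ d) :
    |exp (-(σ * (L + d))) / (L + d) - exp (-(σ * L)) / L| ≤ 2 * d / L ^ 2 := by
  have h0 : 0 < L := by linarith
  have h1 : 0 < L + d := by linarith
  have e : exp (-(σ * (L + d))) = exp (-(σ * L)) * exp (-(σ * d)) := by
    rw [← exp_add]; congr 1; ring
  have a1 : exp (-(σ * d)) ≤ 1 := exp_le_one_iff.2 (by nlinarith)
  have a2 : 1 - σ * d ≤ exp (-(σ * d)) := by linarith [add_one_le_exp (-(σ * d))]
  have a3 : exp (-(σ * L)) ≤ 1 := exp_le_one_iff.2 (by nlinarith)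
  have a4 : σ * L * exp (-(σ * L)) ≤ 1 := by
    rw [exp_neg, ← div_eq_mul_inv, div_le_one (exp_pos _)]
    linarith [add_one_le_exp (σ * L)]
  have a5 := exp_pos (-(σ * L))
  rw [e]
  set u := exp (-(σ * L))
  set v := exp (-(σ * d))
  have e2 : u * v / (L + d) - u / L = -(u * (d + L * (1 - v)) / (L * (L + d))) := by
    field_simp; ring
  have b0 : 0 ≤ L * (1 - v) := mul_nonneg h0.le (by linarith)
  rw [e2, abs_neg, abs_of_nonneg (by positivity), div_le_div_iff₀ (by positivity) (by positivity)]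
  have b1 : u * (d + L * (1 - v)) ≤ 2 * d := by
    have c1 : L * (1 - v) ≤ L * (σ * d) := mul_le_mul_of_nonneg_left (by linarith) h0.le
    nlinarith [mul_le_mul_of_nonneg_left c1 a5.le, mul_le_mul_of_nonneg_right a4 hd,
      mul_le_mul_of_nonneg_right a3 hd]
  have b2 : L ^ 2 ≤ L * (L + d) := by nlinarith
  exact mul_le_mul b1 b2 (by positivity) (by positivity)

theorem one_le_log {n : ℕ} (hn : 3 ≤ n) : 1 ≤ log n := by
  have h : (3 : ℝ) ≤ n := by exact_mod_cast hn
  rw [le_log_iff_exp_le (by linarith)]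
  linarith [exp_one_lt_d9]

theorem log_step {n : ℕ} (hn : 3 ≤ n) : 0 ≤ log ((n + 1 : ℕ) : ℝ) - log n ∧
    log ((n + 1 : ℕ) : ℝ) - log n ≤ 1 / n ∧ 1 / n - 1 / (n : ℝ) ^ 2 ≤ log ((n + 1 : ℕ) : ℝ) - log n := by
  have h : (3 : ℝ) ≤ n := by exact_mod_cast hn
  have h0 : (0 : ℝ) < n := by linarith
  push_cast
  refine ⟨sub_nonneg.2 (log_le_log h0 (by linarith)), ?_, ?_⟩
  · rw [← log_div (by linarith) h0.ne']
    refine (log_le_sub_one_of_pos (by positivity)).trans_eq ?_
    field_simp; ring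
  · have h1 := log_le_sub_one_of_pos (x := n / (n + 1)) (by positivity)
    rw [log_div h0.ne' (by linarith)] at h1
    have h2 : 1 / n - 1 / (n : ℝ) ^ 2 ≤ 1 - n / (n + 1) := by
      rw [div_sub_div _ _ h0.ne' (by positivity), one_sub_div (by linarith),
        div_le_div_iff₀ (by positivity) (by positivity)]
      nlinarith
    linarith

/-- the majorant -/
noncomputable def maj (n : ℕ) : ℝ := 1 / (((n + 3 : ℕ) : ℝ) * log ((n + 3 : ℕ) : ℝ) ^ 2)

theorem maj_summable : Summable maj := by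
  refine (summable_nat_add_iff 1).1 (summable_of_sum_range_le (c := 1) (fun n => ?_) fun N => ?_)
  · unfold maj; positivity
  have h : ∀ n : ℕ, maj (n + 1) ≤ 1 / log ((n + 3 : ℕ) : ℝ) - 1 / log ((n + 1 + 3 : ℕ) : ℝ) :=
    fun n => by
      have a1 := one_le_log (n := n + 3) (by omega)
      have a2 := (log_step (n := n + 3) (by omega)).1
      have a3 := log_le_sub_one_of_pos (x := ((n + 3 : ℕ) : ℝ) / ((n + 3 + 1 : ℕ) : ℝ)) (by positivity)
      rw [log_div (by positivity) (by positivity)] at a3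
      rw [maj, show n + 1 + 3 = n + 3 + 1 by ring]
      have a4 : 1 / ((n + 3 + 1 : ℕ) : ℝ) = 1 - ((n + 3 : ℕ) : ℝ) / ((n + 3 + 1 : ℕ) : ℝ) := by
        push_cast; field_simp; ring
      have a5 : (0 : ℝ) < ((n + 3 + 1 : ℕ) : ℝ) := by positivity
      set L := log ((n + 3 : ℕ) : ℝ)
      set L' := log ((n + 3 + 1 : ℕ) : ℝ)
      rw [div_sub_div _ _ (by linarith) (by linarith), ← div_div]
      exact div_le_div₀ (by linarith) (by linarith) (by nlinarith) (by nlinarith)
  refine (sum_le_sum fun n _ => h n).trans ?_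
  rw [sum_range_sub' (fun n => 1 / log ((n + 3 : ℕ) : ℝ))]
  have a1 := one_le_log (n := 0 + 3) (by omega)
  have a2 := one_le_log (n := N + 3) (by omega)
  have a3 : 1 / log ((0 + 3 : ℕ) : ℝ) ≤ 1 := by rw [div_le_one (by linarith)]; exact a1
  have a4 : 0 ≤ 1 / log ((N + 3 : ℕ) : ℝ) := by positivity
  linarith

noncomputable def ps (s : ℝ) (n : ℕ) : ℝ := exp (-((s - 1) * log n)) / log n

noncomputable def ww (s t : ℝ) (n : ℕ) : ℝ := ps s n * gg (t * log n) / n

noncomputable def VV (E : ℕ → ℝ) (s t : ℝ) (n : ℕ) : ℝ :=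
  E n * ww s t n + GG (t * log n) * ps s n / t

theorem ps_le {s : ℝ} (hs : 1 ≤ s) {n : ℕ} (hn : 3 ≤ n) : 0 ≤ ps s n ∧ ps s n ≤ 1 / log n := by
  have h := one_le_log hn
  exact ⟨by unfold ps; positivity, div_le_div_of_nonneg_right
    (exp_le_one_iff.2 (by nlinarith)) (by linarith)⟩

theorem ps_step {s : ℝ} (hs : 1 ≤ s) {n : ℕ} (hn : 3 ≤ n) :
    |ps s (n + 1) - ps s n| ≤ 2 * (1 / (n * log n ^ 2)) := by
  obtain ⟨a1, a2, -⟩ := log_step hn
  have h := psi_step (s - 1) (log n) _ (by linarith) (one_le_log hn) a1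
  rw [add_sub_cancel] at h
  refine h.trans ?_
  rw [← div_div, mul_div_assoc]
  gcongr

theorem VV_le {E : ℕ → ℝ} {C B τ s t : ℝ} (hC : 0 ≤ C)
    (hE : ∀ y : ℕ, 3 ≤ y → |E y| ≤ C * y / log y ^ 2) (hB : ∀ x, |GG x| ≤ B) (hτ : 0 < τ)
    (hs : 1 ≤ s) (ht : τ ≤ t) {n : ℕ} (hn : 3 ≤ n) : |VV E s t n| ≤ (C + B / τ) / log n := by
  have h : (3 : ℝ) ≤ n := by exact_mod_cast hn
  have hL := one_le_log hn
  obtain ⟨a1, a2⟩ := ps_le hs hn
  have hB0 := (abs_nonneg _).trans (hB 0)
  have b1 : |E n * ww s t n| ≤ C / log n := by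
    rw [ww, abs_mul, abs_div, abs_mul, abs_of_nonneg a1, Nat.abs_cast]
    calc _ ≤ C * n / log n ^ 2 * (1 / log n * 1 / n) := by
          gcongr
          · exact hE n hn
          · exact gg_abs _
      _ = C / log n * (1 / log n ^ 2) := by field_simp
      _ ≤ C / log n := mul_le_of_le_one_right (by positivity)
          (by rw [div_le_one (by positivity)]; nlinarith)
  have b2 : |GG (t * log n) * ps s n / t| ≤ B / τ / log n := by
    rw [abs_div, abs_mul, abs_of_nonneg a1, abs_of_nonneg (by linarith : 0 ≤ t)]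
    calc _ ≤ B * (1 / log n) / τ := by
          gcongr
          exact hB _
      _ = _ := by ring
  rw [add_div]
  exact (abs_add_le _ _).trans (add_le_add b1 b2)

theorem VV_step {E : ℕ → ℝ} {C B τ T s t : ℝ} (hC : 0 ≤ C)
    (hE : ∀ y : ℕ, 3 ≤ y → |E y| ≤ C * y / log y ^ 2) (hB : ∀ x, |GG x| ≤ B) (hτ : 0 < τ)
    (hs : 1 ≤ s) (ht : τ ≤ t) (hT : t ≤ T) {n : ℕ} (hn : 3 ≤ n) :
    |(E (n + 1) - E n + 1) * ww s t n - (VV E s t (n + 1) - VV E s t n)|
      ≤ (2 * C * (3 + T) + 2 * B / τ) * (1 / (n * log n ^ 2)) + (1 + T) * (1 / (n : ℝ) ^ 2) := by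
  have h : (3 : ℝ) ≤ n := by exact_mod_cast hn
  have h0 : (0 : ℝ) < n := by linarith
  have ht0 : 0 < t := by linarith
  have hT0 : 0 ≤ T := by linarith
  have hL := one_le_log hn
  obtain ⟨a1, a2⟩ := ps_le hs hn
  obtain ⟨a1', a2'⟩ := ps_le hs (n := n + 1) (by omega)
  have a3 : ps s n ≤ 1 := a2.trans (by rw [div_le_one (by linarith)]; exact hL)
  have a3' : ps s (n + 1) ≤ 1 := a2'.trans (by
    have := one_le_log (n := n + 1) (by omega)
    rw [div_le_one (by linarith)]; exact this)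
  have a4 := ps_step hs hn
  obtain ⟨d1, d2, d3⟩ := log_step hn
  have hB0 := (abs_nonneg _).trans (hB 0)
  have g1 := gg_lip (t * log ((n + 1 : ℕ) : ℝ)) (t * log n)
  have g2 := GG_taylor (t * log n) (t * log ((n + 1 : ℕ) : ℝ)) (by nlinarith)
  rw [← mul_sub] at g1 g2
  rw [abs_of_nonneg (mul_nonneg ht0.le d1)] at g1
  have g3 := gg_abs (t * log n)
  have g3' := gg_abs (t * log ((n + 1 : ℕ) : ℝ))
  have e1 : |E (n + 1)| ≤ 2 * C * n / log n ^ 2 := by
    refine (hE (n + 1) (by omega)).trans (div_le_div₀ (by positivity) ?_ (by positivity) ?_)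
    · push_cast; nlinarith
    · gcongr; omega
  have w1 : |ww s t (n + 1) - ww s t n| ≤ (3 + T) / (n : ℝ) ^ 2 := by
    have e : ww s t (n + 1) - ww s t n = (ps s (n + 1) - ps s n) * gg (t * log n) / n
        + ps s (n + 1) * (gg (t * log ((n + 1 : ℕ) : ℝ)) - gg (t * log n)) / n
        - ps s (n + 1) * gg (t * log ((n + 1 : ℕ) : ℝ)) / (n * (n + 1)) := by
      rw [ww, ww, Nat.cast_add_one n]; field_simp; ring
    have b1 : |(ps s (n + 1) - ps s n) * gg (t * log n) / n| ≤ 2 / (n : ℝ) ^ 2 := by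
      rw [abs_div, abs_mul, Nat.abs_cast]
      have c : |ps s (n + 1) - ps s n| ≤ 2 * (1 / ((n : ℝ) * 1)) := by
        refine a4.trans ?_
        gcongr
        nlinarith
      calc _ ≤ 2 * (1 / ((n : ℝ) * 1)) * 1 / n := by gcongr
        _ = _ := by field_simp
    have b2 : |ps s (n + 1) * (gg (t * log ((n + 1 : ℕ) : ℝ)) - gg (t * log n)) / n|
        ≤ T / (n : ℝ) ^ 2 := by
      rw [abs_div, abs_mul, Nat.abs_cast, abs_of_nonneg a1']
      calc _ ≤ 1 * (T * (1 / n)) / n := by
            gcongr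
            exact g1.trans (mul_le_mul hT d2 d1 (by linarith))
        _ = _ := by field_simp
    have b3 : |ps s (n + 1) * gg (t * log ((n + 1 : ℕ) : ℝ)) / (n * (n + 1))|
        ≤ 1 / (n : ℝ) ^ 2 := by
      rw [abs_div, abs_mul, abs_of_nonneg a1', abs_of_nonneg (by positivity : (0 : ℝ) ≤ n * (n + 1))]
      exact div_le_div₀ zero_le_one (mul_le_one₀ a3' (abs_nonneg _) g3') (by positivity)
        (by nlinarith)
    rw [e]
    refine (abs_sub _ _).trans ((add_le_add ((abs_add_le _ _).trans (add_le_add b1 b2)) b3).trans_eq ?_)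
    ring
  set d := log ((n + 1 : ℕ) : ℝ) - log n
  set H' := GG (t * log ((n + 1 : ℕ) : ℝ)) with hH'
  set H := GG (t * log n) with hH
  have e : (E (n + 1) - E n + 1) * ww s t n - (VV E s t (n + 1) - VV E s t n)
      = -(E (n + 1) * (ww s t (n + 1) - ww s t n)) - H' * (ps s (n + 1) - ps s n) / t
        + ps s n * (gg (t * log n) * (1 / n - d) - (H' - H - gg (t * log n) * (t * d)) / t) := by
    rw [VV, VV, ← hH, ← hH']
    have : ww s t n = ps s n * gg (t * log n) / n := rfl
    set w' := ww s t (n + 1)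
    rw [this]
    field_simp
    ring
  have c1 : |E (n + 1) * (ww s t (n + 1) - ww s t n)| ≤ 2 * C * (3 + T) * (1 / (n * log n ^ 2)) := by
    rw [abs_mul]
    refine (mul_le_mul e1 w1 (abs_nonneg _) (by positivity)).trans_eq ?_
    field_simp
  have c2 : |H' * (ps s (n + 1) - ps s n) / t| ≤ 2 * B / τ * (1 / (n * log n ^ 2)) := by
    rw [abs_div, abs_mul, abs_of_pos ht0]
    calc _ ≤ B * (2 * (1 / (n * log n ^ 2))) / τ := by
          gcongr
          exact hB _
      _ = _ := by ring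
  have c3 : |ps s n * (gg (t * log n) * (1 / n - d) - (H' - H - gg (t * log n) * (t * d)) / t)|
      ≤ (1 + T) * (1 / (n : ℝ) ^ 2) := by
    have b1 : |gg (t * log n) * (1 / n - d)| ≤ 1 / (n : ℝ) ^ 2 := by
      rw [abs_mul, abs_of_nonneg (by linarith : 0 ≤ 1 / n - d)]
      exact (mul_le_of_le_one_left (by linarith) g3).trans (by linarith)
    have b2 : |(H' - H - gg (t * log n) * (t * d)) / t| ≤ T * (1 / (n : ℝ) ^ 2) := by
      rw [abs_div, abs_of_pos ht0, div_le_iff₀ ht0]
      refine g2.trans ?_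
      have : d ^ 2 ≤ 1 / (n : ℝ) ^ 2 := by rw [← one_div_pow]; gcongr
      calc (t * d) ^ 2 = t * d ^ 2 * t := by ring
        _ ≤ _ := by gcongr
    rw [abs_mul, abs_of_nonneg a1]
    refine (mul_le_of_le_one_left (abs_nonneg _) a3).trans ((abs_sub _ _).trans ?_)
    linarith
  rw [e]
  refine (abs_add_le _ _).trans (add_le_add ((abs_sub _ _).trans ?_) c3)
  rw [abs_neg]
  linarith

end Pool.Agent.Lib.MP_3ba922_nt.SB
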