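import Pool.Agent.Lib.MP_3ba922_nt.SB.CorDefs
import Pool.Agent.Lib.MP_3ba922_nt.SB.Osc

/-! The limiting convex set: windows, truncation, reflection. -/

set_option autoImplicit false

namespace Pool.Agent.Lib.MP_3ba922_nt.SB

open Finset Filter Topology Real MeasureTheory intervalIntegral

noncomputable def Fc (θ u : ℝ) : ℝ := max 0 (cos (u - θ))

noncomputable def Gf (l : ℝ) (F : ℝ → ℝ) (u : ℝ) : ℝ := F u * exp (-(l * u)) / u

theorem supp_eq (l θ : ℝ) : supp l θ = ∫ u in Set.Ioi (0 : ℝ), Gf l (Fc θ) u := rfl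

theorem Fc_nonneg (θ u : ℝ) : 0 ≤ Fc θ u := le_max_left _ _

theorem Fc_le (θ u : ℝ) : Fc θ u ≤ 1 := max_le zero_le_one (cos_le_one _)

theorem Fc_lip (θ x y : ℝ) : |Fc θ x - Fc θ y| ≤ |x - y| := by
  have h1 := abs_max_sub_max_le_abs (cos (x - θ)) (cos (y - θ)) 0
  have h2 := abs_cos_sub_cos_le (x - θ) (y - θ)
  rw [max_comm _ 0, max_comm _ 0] at h1
  rw [sub_sub_sub_cancel_right] at h2
  exact h1.trans h2

theorem Fc_cont (θ : ℝ) : Continuous (Fc θ) := by unfold Fc; fun_prop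

theorem Fc_le_id {θ u : ℝ} (hθ : cos θ ≤ 0) (hu : 0 ≤ u) : Fc θ u ≤ u := by
  have h := Fc_lip θ u 0
  have e : Fc θ 0 = 0 := by rw [Fc, zero_sub, cos_neg]; exact max_eq_left hθ
  rw [e, sub_zero, sub_zero, abs_of_nonneg hu] at h
  exact (le_abs_self _).trans h

theorem Gf_nonneg (l θ : ℝ) {u : ℝ} (hu : 0 ≤ u) : 0 ≤ Gf l (Fc θ) u :=
  div_nonneg (mul_nonneg (Fc_nonneg _ _) (exp_pos _).le) hu

theorem Gf_le (l : ℝ) {θ u : ℝ} (hθ : cos θ ≤ 0) (hu : 0 ≤ u) : Gf l (Fc θ) u ≤ exp (-l * u) := by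
  rcases hu.eq_or_lt with rfl | h
  · simp [Gf]
  rw [Gf, div_le_iff₀ h, neg_mul, mul_comm]
  exact mul_le_mul_of_nonneg_left (Fc_le_id hθ hu) (exp_pos _).le

theorem Gf_int {l θ : ℝ} (hl : 0 < l) (hθ : cos θ ≤ 0) :
    IntegrableOn (Gf l (Fc θ)) (Set.Ioi 0) := by
  have := (Fc_cont θ).measurable
  refine (exp_neg_integrableOn_Ioi 0 hl).mono'
    (by unfold Gf; fun_prop : Measurable (Gf l (Fc θ))).aestronglyMeasurable
    ((ae_restrict_iff' measurableSet_Ioi).2 (ae_of_all _ fun u hu => ?_))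
  rw [Real.norm_of_nonneg (Gf_nonneg l θ (le_of_lt hu))]
  exact Gf_le l hθ (le_of_lt hu)

theorem ii0 {f : ℝ → ℝ} (h : IntegrableOn f (Set.Ioi 0)) {a b : ℝ} (ha : 0 ≤ a) (hab : a ≤ b) :
    IntervalIntegrable f volume a b :=
  (intervalIntegrable_iff_integrableOn_Ioc_of_le hab).2
    (h.mono_set fun _ hx => ha.trans_lt hx.1)

theorem Gf_ii (l : ℝ) {F : ℝ → ℝ} (hF : Continuous F) {a b : ℝ} (ha : 0 < a) (hab : a ≤ b) :
    IntervalIntegrable (Gf l F) volume a b := by
  refine ContinuousOn.intervalIntegrable ?_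
  rw [Set.uIcc_of_le hab]
  exact (by fun_prop : Continuous fun u => F u * exp (-(l * u))).continuousOn.div
    continuousOn_id fun u hu => (ha.trans_le hu.1).ne'

theorem Gf_mono {l θ : ℝ} (hl : 0 < l) (hθ : cos θ ≤ 0) {a b c d : ℝ} (hc : 0 ≤ c) (hca : c ≤ a)
    (hab : a ≤ b) (hbd : b ≤ d) : ∫ u in a..b, Gf l (Fc θ) u ≤ ∫ u in c..d, Gf l (Fc θ) u :=
  integral_mono_interval hca hab hbd ((ae_restrict_iff' measurableSet_Ioc).2
    (ae_of_all _ fun u hu => Gf_nonneg l θ (hc.trans hu.1.le)))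
    (ii0 (Gf_int hl hθ) hc (by linarith))

theorem tail_supp {l θ : ℝ} (hl : 0 < l) (hθ : cos θ ≤ 0) {U : ℝ} (hU : 0 < U) :
    0 ≤ supp l θ - ∫ u in (0 : ℝ)..U, Gf l (Fc θ) u ∧
      supp l θ - ∫ u in (0 : ℝ)..U, Gf l (Fc θ) u ≤ 1 / (l * U) := by
  have h := Gf_int hl hθ
  rw [supp_eq, ← integral_Ioi_sub_Ioi h hU.le, sub_sub_cancel]
  refine ⟨setIntegral_nonneg measurableSet_Ioi fun u hu => Gf_nonneg l θ (hU.trans hu).le, ?_⟩
  have h1 := (exp_neg_integrableOn_Ioi U hl).div_const U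
  refine (setIntegral_mono_on (h.mono_set (Set.Ioi_subset_Ioi hU.le)) h1 measurableSet_Ioi
    fun u hu => ?_).trans ?_
  · rw [Gf, neg_mul]
    exact div_le_div₀ (exp_pos _).le (mul_le_of_le_one_left (exp_pos _).le (Fc_le _ _)) hU
      (le_of_lt hu)
  · rw [MeasureTheory.integral_div, integral_exp_mul_Ioi (by linarith), neg_div_neg_eq, div_div]
    exact div_le_div_of_nonneg_right (exp_le_one_iff.2 (by nlinarith)) (by positivity)

theorem supp_le {l θ : ℝ} (hl : 0 < l) (hθ : cos θ ≤ 0) : supp l θ ≤ 1 / l := by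
  refine (setIntegral_mono_on (Gf_int hl hθ) (exp_neg_integrableOn_Ioi 0 hl) measurableSet_Ioi
    fun u hu => Gf_le l hθ (le_of_lt hu)).trans_eq ?_
  rw [integral_exp_mul_Ioi (by linarith), neg_div_neg_eq, mul_zero, exp_zero]

theorem small_le {l θ : ℝ} (hl : 0 < l) (hθ : cos θ ≤ 0) {a b : ℝ} (ha : 0 ≤ a) (hab : a ≤ b) :
    ∫ u in a..b, Gf l (Fc θ) u ≤ b - a := by
  have := integral_mono_on hab (ii0 (Gf_int hl hθ) ha hab)
    (continuous_const.intervalIntegrable (u := fun _ => (1 : ℝ)) a b) fun u hu =>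
      (Gf_le l hθ (ha.trans hu.1)).trans (exp_le_one_iff.2 (by nlinarith [hu.1]))
  simpa using this

theorem Fc_period (θ a : ℝ) : ∫ u in a..a + 2 * π, Fc θ u = 2 := by
  have e : ∀ u, Fc θ u = 1 / π - gg (u - (θ - π)) := fun u => by
    rw [gg, Fc, show u - (θ - π) = u - θ + π by ring, cos_add_pi, neg_neg]; ring
  have c : Continuous fun u => gg (u - (θ - π)) := gg_cont.comp (by fun_prop)
  simp only [e]
  rw [integral_sub (continuous_const.intervalIntegrable _ _) (c.intervalIntegrable _ _),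
    integral_comp_sub_right gg, ← GG_sub, show a + 2 * π - (θ - π) = a - (θ - π) + 2 * π by ring,
    GG_per, intervalIntegral.integral_const, smul_eq_mul]
  field_simp
  ring

theorem win {l : ℝ} (hl : 0 ≤ l) (θ : ℝ) {a b Y : ℝ} (ha : 0 < a) (hab : a + 2 * π ≤ b) (hY : b ≤ Y) :
    2 * (exp (-(l * Y)) / Y) ≤ ∫ u in a..b, Gf l (Fc θ) u := by
  have hpi := pi_pos
  have h1 : ∫ u in a..a + 2 * π, Gf l (Fc θ) u ≤ ∫ u in a..b, Gf l (Fc θ) u :=
    integral_mono_interval le_rfl (by linarith) hab ((ae_restrict_iff' measurableSet_Ioc).2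
      (ae_of_all _ fun u hu => Gf_nonneg l θ (ha.trans hu.1).le))
      (Gf_ii l (Fc_cont θ) ha (by linarith))
  refine le_trans ?_ h1
  have e : 2 * (exp (-(l * Y)) / Y) = ∫ u in a..a + 2 * π, Fc θ u * (exp (-(l * Y)) / Y) := by
    rw [intervalIntegral.integral_mul_const, Fc_period]
  rw [e]
  refine integral_mono_on (by linarith) (((Fc_cont θ).mul continuous_const).intervalIntegrable _ _)
    (Gf_ii l (Fc_cont θ) ha (by linarith)) fun u hu => ?_
  rw [Gf, mul_div_assoc]
  exact mul_le_mul_of_nonneg_left (div_le_div₀ (exp_pos _).le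
    (exp_le_exp.2 (by nlinarith [hu.2])) (ha.trans_le hu.1) (by linarith [hu.2])) (Fc_nonneg _ _)

theorem trunc (B ε : ℝ) (hε : 0 < ε) : ∃ U : ℝ, 8 ≤ U ∧ ∀ l θ : ℝ, 0 < l → cos θ ≤ 0 →
    min (supp l θ - ε) B ≤ ∫ u in (0 : ℝ)..U, Gf l (Fc θ) u := by
  have hpi := pi_lt_d2
  obtain ⟨k, hk⟩ := (tendsto_sum_range_one_div_nat_succ_atTop.eventually_ge_atTop
    (8 * exp 1 * B)).exists
  set V : ℝ := 8 * (k + 2) with hV
  have hV0 : 0 < V := by positivity
  have hk0 : (0 : ℝ) ≤ k := Nat.cast_nonneg k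
  refine ⟨max V (V / ε), le_max_of_le_left (by linarith), fun l θ hl hθ => ?_⟩
  rcases le_total (l * V) 1 with h | h
  · refine (min_le_right _ _).trans (le_trans ?_ (Gf_mono hl hθ (a := 8) (b := 8 * (k + 1))
      le_rfl (by norm_num) (by linarith) (le_max_of_le_left (by linarith))))
    have h1 : ∀ n : ℕ, n ≤ k → (∑ i ∈ range n, (1 / (i + 1) : ℝ)) / (8 * exp 1)
        ≤ ∫ u in (8 : ℝ)..8 * (n + 1), Gf l (Fc θ) u := fun n hn => by
      induction n with
      | zero => simp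
      | succ n ih =>
        have hn0 : (0 : ℝ) ≤ n := Nat.cast_nonneg n
        have hn' : (n : ℝ) + 1 ≤ k := by exact_mod_cast hn
        have a1 := win hl.le θ (a := 8 * (n + 1)) (b := 8 * (n + 1 + 1)) (by positivity)
          (by linarith) le_rfl
        have a2 : 1 / ((n : ℝ) + 1) / (8 * exp 1)
            ≤ 2 * (exp (-(l * (8 * (n + 1 + 1)))) / (8 * (n + 1 + 1))) := by
          have b : exp (-1) ≤ exp (-(l * (8 * (n + 1 + 1)))) := exp_le_exp.2 (by nlinarith)
          calc _ = 2 * (exp (-1) / (16 * (n + 1))) := by rw [exp_neg]; field_simp; ring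
            _ ≤ _ := mul_le_mul_of_nonneg_left (div_le_div₀ (exp_pos _).le b (by positivity)
                (by linarith)) zero_le_two
        rw [sum_range_succ, add_div, Nat.cast_succ, ← integral_add_adjacent_intervals
          (b := 8 * (n + 1)) (Gf_ii l (Fc_cont θ) (by norm_num) (by linarith))
          (Gf_ii l (Fc_cont θ) (by positivity) (by linarith))]
        linarith [ih (by omega)]
    refine le_trans ?_ (h1 k le_rfl)
    rw [le_div_iff₀ (by positivity)]
    linarith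
  · have hU : 0 < max V (V / ε) := lt_max_of_lt_left hV0
    have h1 := (tail_supp hl hθ hU).2
    have h2 : 1 / (l * max V (V / ε)) ≤ ε := by
      rw [div_le_iff₀ (by positivity)]
      calc (1 : ℝ) ≤ ε * (l * (V / ε)) := by field_simp; exact h
        _ ≤ _ := by gcongr; exact le_max_right _ _
    exact (min_le_left _ _).trans (by linarith)

theorem D_sign {θ u : ℝ} (h : 0 ≤ sin θ * sin u) : Fc (-θ) u ≤ Fc θ u :=
  max_le_max le_rfl (by rw [cos_sub, cos_sub, cos_neg, sin_neg]; nlinarith)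

theorem pair {l θ : ℝ} (hl : 0 < l) (hθ : cos θ ≤ 0) (hs : 0 ≤ sin θ) (k : ℕ) :
    0 ≤ (-1) ^ k * ∫ u in (k * π)..((k + 2) * π), (Gf l (Fc θ) u - Gf l (Fc (-θ)) u) := by
  have hpi := pi_pos
  have hk : (0 : ℝ) ≤ k := Nat.cast_nonneg k
  have hi : IntegrableOn (fun u => Gf l (Fc θ) u - Gf l (Fc (-θ)) u) (Set.Ioi 0) :=
    (Gf_int hl hθ).sub (Gf_int hl (by rwa [cos_neg]))
  set f := fun u => Gf l (Fc θ) u - Gf l (Fc (-θ)) u with hf
  set c : ℝ := (k + 1) * π with hc
  have i1 : IntervalIntegrable f volume (c - π) (c - 0) := ii0 hi (by nlinarith) (by linarith)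
  have i2 : IntervalIntegrable f volume (c + 0) (c + π) := ii0 hi (by nlinarith) (by linarith)
  have e : ∫ u in (k * π)..((k + 2) * π), f u = ∫ x in (0 : ℝ)..π, (f (c - x) + f (c + x)) := by
    have j1 := (i1.comp_sub_left c).symm
    have j2 := i2.comp_add_left c
    simp only [sub_sub_cancel, sub_zero, sub_self, add_zero, add_sub_cancel_left] at j1 j2
    rw [integral_add j1 j2, integral_comp_sub_left f, integral_comp_add_left f, add_zero, sub_zero,
      integral_add_adjacent_intervals (by simpa using i1) (by simpa using i2)]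
    congr 1 <;> ring
  rw [e, ← intervalIntegral.integral_const_mul]
  refine integral_nonneg_of_ae_restrict hpi.le ?_
  rw [← Measure.restrict_congr_set Ioo_ae_eq_Icc]
  refine (ae_restrict_iff' measurableSet_Ioo).2 (ae_of_all _ fun x hx => ?_)
  have x0 : 0 < c - x := by nlinarith [hx.2]
  have p1 : ∀ φ, Fc φ (c - x) = Fc (-φ) (c + x) := fun φ => by
    rw [Fc, Fc, ← cos_neg, show c + x - -φ = -(c - x - φ) + ((k + 1 : ℕ) : ℝ) * (2 * π) by
      push_cast; ring, cos_add_nat_mul_two_pi]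
  have m : exp (-(l * (c + x))) / (c + x) ≤ exp (-(l * (c - x))) / (c - x) :=
    div_le_div₀ (exp_pos _).le (exp_le_exp.2 (by nlinarith [hx.1])) x0 (by linarith [hx.1])
  have sx := sin_nonneg_of_nonneg_of_le_pi hx.1.le hx.2.le
  have s1 : sin (c + x) = (-1) ^ (k + 1) * sin x := by
    rw [add_comm, hc, ← Nat.cast_succ, sin_add_nat_mul_pi]
  have e2 : f (c - x) + f (c + x) = (Fc (-θ) (c + x) - Fc θ (c + x))
      * (exp (-(l * (c - x))) / (c - x) - exp (-(l * (c + x))) / (c + x)) := by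
    simp only [hf, Gf, p1, neg_neg]; ring
  change 0 ≤ (-1) ^ k * (f (c - x) + f (c + x))
  rw [e2, ← mul_assoc]
  refine mul_nonneg ?_ (by linarith)
  rcases Nat.even_or_odd k with h | h
  · rw [h.add_one.neg_one_pow] at s1
    have := D_sign (θ := -θ) (u := c + x) (by rw [sin_neg, s1]; nlinarith)
    rw [neg_neg] at this
    rw [h.neg_one_pow]; linarith
  · rw [h.add_one.neg_one_pow] at s1
    have := D_sign (θ := θ) (u := c + x) (by rw [s1]; nlinarith)
    rw [h.neg_one_pow]; linarith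

theorem reflect {l θ : ℝ} (hl : 0 < l) (hθ : cos θ ≤ 0) (hs : 0 ≤ sin θ) :
    supp l (-θ) ≤ supp l θ ∧ supp l θ ≤ supp l (-θ) + π * sin θ := by
  have hpi := pi_gt_three
  have hθ' : cos (-θ) ≤ 0 := by rwa [cos_neg]
  have hi : IntegrableOn (fun u => Gf l (Fc θ) u - Gf l (Fc (-θ)) u) (Set.Ioi 0) :=
    (Gf_int hl hθ).sub (Gf_int hl hθ')
  set f := fun u => Gf l (Fc θ) u - Gf l (Fc (-θ)) u with hf
  have e : ∫ u in Set.Ioi 0, f u = supp l θ - supp l (-θ) :=
    MeasureTheory.integral_sub (Gf_int hl hθ) (Gf_int hl hθ')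
  have t : ∀ r : ℕ, Tendsto (fun n : ℕ => ∫ u in (0 : ℝ)..((2 * n + r : ℕ) : ℝ) * π, f u) atTop
      (𝓝 (supp l θ - supp l (-θ))) := fun r => e ▸ intervalIntegral_tendsto_integral_Ioi 0 hi
    ((tendsto_natCast_atTop_atTop.comp (tendsto_atTop_mono (fun n => by simp; omega)
      tendsto_id)).atTop_mul_const pi_pos)
  have st : ∀ k : ℕ, ∫ u in (0 : ℝ)..((k + 2 : ℕ) : ℝ) * π, f u
      = (∫ u in (0 : ℝ)..k * π, f u) + ∫ u in (k * π)..((k + 2) * π), f u := fun k => by
    rw [integral_add_adjacent_intervals (ii0 hi le_rfl (by positivity))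
      (ii0 hi (by positivity) (by nlinarith)), Nat.cast_add, Nat.cast_two]
  constructor
  · refine sub_nonneg.1 (ge_of_tendsto' (t 0) fun n => ?_)
    induction n with
    | zero => simp
    | succ n ih =>
      have := pair hl hθ hs (2 * n + 0)
      rw [Even.neg_one_pow ⟨n, by ring⟩, one_mul] at this
      rw [show 2 * (n + 1) + 0 = 2 * n + 0 + 2 by ring, st]
      exact add_nonneg ih this
  · refine sub_le_iff_le_add'.1 (le_of_tendsto' (t 1) fun n => ?_)
    induction n with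
    | zero =>
      have a1 : ∫ u in (0 : ℝ)..π / 2, f u ≤ ∫ _ in (0 : ℝ)..π / 2, sin θ := by
        refine integral_mono_on_of_le_Ioo (by linarith) (ii0 hi le_rfl (by linarith))
          (continuous_const.intervalIntegrable _ _) fun u hu => ?_
        have b1 := cos_nonneg_of_mem_Icc (x := u) ⟨by linarith [hu.1], hu.2.le⟩
        have b2 := sin_nonneg_of_nonneg_of_le_pi hu.1.le (by linarith [hu.2])
        have b3 : Fc θ u ≤ u * sin θ := max_le (mul_nonneg hu.1.le hs) (by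
          rw [cos_sub]; nlinarith [sin_le hu.1.le])
        have b4 : Gf l (Fc θ) u ≤ sin θ := by
          rw [Gf, div_le_iff₀ hu.1, mul_comm (sin θ)]
          exact (mul_le_of_le_one_right (Fc_nonneg _ _)
            (exp_le_one_iff.2 (by nlinarith [hu.1]))).trans b3
        linarith [Gf_nonneg l (-θ) hu.1.le]
      have a2 : ∫ u in π / 2..π, f u ≤ ∫ u in π / 2..π, 4 / 3 * sin θ * sin u := by
        refine integral_mono_on (by linarith) (ii0 hi (by linarith) (by linarith))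
          ((by fun_prop : Continuous _).intervalIntegrable _ _) fun u hu => ?_
        have b0 : 0 < u := by linarith [hu.1]
        have b2 := mul_nonneg hs (sin_nonneg_of_nonneg_of_le_pi b0.le hu.2)
        have b3 : Fc θ u - Fc (-θ) u ≤ 2 * (sin θ * sin u) := by
          have := abs_max_sub_max_le_abs (cos (u - θ)) (cos (u - -θ)) 0
          rw [max_comm _ 0, max_comm _ 0, show cos (u - θ) - cos (u - -θ) = 2 * (sin θ * sin u) by
            rw [cos_sub, cos_sub, cos_neg, sin_neg]; ring,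
            abs_of_nonneg (by linarith : 0 ≤ 2 * (sin θ * sin u))] at this
          exact (le_abs_self _).trans this
        have b4 : exp (-(l * u)) ≤ 1 := exp_le_one_iff.2 (by nlinarith)
        simp only [hf, Gf]
        rw [← sub_div, ← sub_mul, div_le_iff₀ b0]
        nlinarith [mul_le_mul_of_nonneg_right b3 (exp_pos (-(l * u))).le,
          mul_le_mul_of_nonneg_left b4 b2, mul_le_mul_of_nonneg_left hu.1 b2,
          mul_le_mul_of_nonneg_left hpi.le b2]
      rw [intervalIntegral.integral_const, smul_eq_mul] at a1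
      rw [intervalIntegral.integral_const_mul, integral_sin, cos_pi, cos_pi_div_two] at a2
      rw [show ((2 * 0 + 1 : ℕ) : ℝ) * π = π by simp, ← integral_add_adjacent_intervals (b := π / 2)
        (ii0 hi le_rfl (by linarith)) (ii0 hi (by linarith) (by linarith))]
      nlinarith [mul_le_mul_of_nonneg_right hpi.le hs]
    | succ n ih =>
      have := pair hl hθ hs (2 * n + 1)
      rw [Odd.neg_one_pow ⟨n, rfl⟩] at this
      rw [show 2 * (n + 1) + 1 = 2 * n + 1 + 2 by ring, st]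
      linarith

/-- the linear form -/
noncomputable def fm (w : ℂ) (θ : ℝ) : ℝ := w.re * cos θ + w.im * sin θ

theorem translate {l ε : ℝ} (hl : 0 < l) {W : ℂ} (hW : ∀ θ, cos θ ≤ 0 → fm W θ ≤ supp l θ + ε)
    (h0 : 0 < (Complex.exp W).re) (θ : ℝ) (hθ : cos θ ≤ 0) :
    fm (Complex.log (Complex.exp W)) θ ≤ supp l θ + ε := by
  have hpi := pi_pos
  obtain ⟨n, hn⟩ := Complex.exp_eq_exp_iff_exists_int.1
    (Complex.exp_log (Complex.exp_ne_zero W)).symm
  have h1 := abs_lt.1 (Complex.abs_arg_lt_pi_div_two_iff.2 (Or.inl h0))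
  rw [← Complex.log_im] at h1
  set w := Complex.log (Complex.exp W)
  have e1 : W.re = w.re := by rw [hn]; simp
  have e2 : W.im = w.im + n * (2 * π) := by rw [hn]; simp
  have a1 := hW θ hθ
  have a2 := hW (-θ) (by rwa [cos_neg])
  simp only [fm, e1, e2, cos_neg, sin_neg] at a1 a2 ⊢
  rcases le_total 0 (sin θ) with hs | hs
  · rcases le_or_gt 0 n with h | h
    · have : (0 : ℝ) ≤ n := by exact_mod_cast h
      nlinarith [mul_nonneg (mul_nonneg this hpi.le) hs]
    · have : (n : ℝ) ≤ -1 := by exact_mod_cast Int.le_sub_one_of_lt h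
      have b : 0 ≤ -(w.im + n * (2 * π)) - w.im := by nlinarith
      nlinarith [mul_nonneg b hs, (reflect hl hθ hs).1]
  · rcases le_or_gt n 0 with h | h
    · have : (n : ℝ) ≤ 0 := by exact_mod_cast h
      nlinarith [mul_nonneg (mul_nonneg (neg_nonneg.2 this) hpi.le) (neg_nonneg.2 hs)]
    · have : (1 : ℝ) ≤ n := by exact_mod_cast h
      have b : 0 ≤ w.im + n * (2 * π) - π + w.im := by nlinarith
      have r := (reflect hl (θ := -θ) (by rwa [cos_neg]) (by rw [sin_neg]; linarith)).2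
      rw [neg_neg, sin_neg] at r
      nlinarith [mul_nonneg b (neg_nonneg.2 hs)]

theorem shift {R ε : ℝ} (hR : R ≤ 1) (hε : 0 < ε) (hε1 : ε ≤ 1) {z : ℂ}
    (hz : z ∈ Metric.ball (1 : ℂ) (R - 4 * ε)) (θ : ℝ) : ∃ z' ∈ Metric.ball (1 : ℂ) R,
      fm (Complex.log z') θ = fm (Complex.log z) θ + ε := by
  have hpi := pi_gt_three
  rw [mem_ball_iff_norm] at hz
  have h1 : 0 < z.re := by
    have := (abs_le.1 (Complex.abs_re_le_norm (z - 1))).1
    rw [Complex.sub_re, Complex.one_re] at this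
    linarith
  have h2 : z ≠ 0 := fun h => by simp [h] at h1
  have h3 := abs_lt.1 (Complex.abs_arg_lt_pi_div_two_iff.2 (Or.inl h1))
  set ζ : ℂ := ⟨ε * cos θ, ε * sin θ⟩ with hζ
  have h4 : ‖ζ‖ = ε := by
    rw [Complex.norm_eq_sqrt_sq_add_sq, hζ, mul_pow, mul_pow, ← mul_add, cos_sq_add_sin_sq, mul_one,
      sqrt_sq hε.le]
  have h5 := Complex.norm_exp_sub_one_le (x := ζ) (by linarith)
  have h6 : ‖z‖ ≤ 2 := by
    have := norm_sub_norm_le z 1
    rw [norm_one] at this
    linarith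
  have h7 := abs_le.1 ((Complex.abs_im_le_norm ζ).trans h4.le)
  refine ⟨Complex.exp (Complex.log z + ζ), ?_, ?_⟩
  · rw [mem_ball_iff_norm, Complex.exp_add, Complex.exp_log h2,
      show z * Complex.exp ζ - 1 = z * (Complex.exp ζ - 1) + (z - 1) by ring]
    refine (norm_add_le _ _).trans_lt ?_
    rw [norm_mul]
    nlinarith [norm_nonneg (Complex.exp ζ - 1)]
  · rw [Complex.log_exp (by rw [Complex.add_im, Complex.log_im]; linarith)
      (by rw [Complex.add_im, Complex.log_im]; linarith)]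
    simp only [fm, Complex.add_re, Complex.add_im, hζ]
    linear_combination ε * cos_sq_add_sin_sq θ

end Pool.Agent.Lib.MP_3ba922_nt.SB
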