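import Pool.Agent.Lib.MP_3ba922_nt.SB.Cor1
import Pool.Agent.Lib.MP_d6ddbd_nt.L.Pnt

/-! Sums over primes of a slowly varying weight. -/

set_option autoImplicit false

namespace Pool.Agent.Lib.MP_3ba922_nt.SB

open Finset Filter Topology Real MeasureTheory intervalIntegral

theorem Gf_abs {l μ x : ℝ} {F : ℝ → ℝ} (hx : 0 < x) (h : |F x| ≤ μ * x) :
    |Gf l F x| ≤ μ * exp (-(l * x)) := by
  rw [Gf, abs_div, abs_mul, abs_of_pos hx, abs_of_pos (exp_pos _), div_le_iff₀ hx]
  nlinarith [exp_pos (-(l * x))]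

theorem Gf_step {l μ x y : ℝ} {F : ℝ → ℝ} (hl : 0 ≤ l) (hx : 0 < x) (hxy : x ≤ y)
    (hμ : μ ≤ 1) (hF : |F y - F x| ≤ |y - x|) (h : |F x| ≤ μ * x) :
    |Gf l F y - Gf l F x| ≤ exp (-(l * x)) * ((2 / x + l * μ) * (y - x)) := by
  have hy : 0 < y := by linarith
  have hd : 0 ≤ y - x := by linarith
  rw [abs_of_nonneg hd] at hF
  have a1 : exp (-(l * y)) ≤ exp (-(l * x)) := exp_le_exp.2 (by nlinarith)
  have a2 : exp (-(l * x)) - exp (-(l * y)) ≤ exp (-(l * x)) * (l * (y - x)) := by
    rw [show -(l * y) = -(l * x) + -(l * (y - x)) by ring, exp_add]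
    nlinarith [add_one_le_exp (-(l * (y - x))), exp_pos (-(l * x))]
  have a3 := exp_pos (-(l * y))
  have a4 : |F x / x| ≤ μ := by rwa [abs_div, abs_of_pos hx, div_le_iff₀ hx]
  have e : Gf l F y - Gf l F x = exp (-(l * y)) * ((F y - F x) / y)
      - exp (-(l * y)) * (F x / x * ((y - x) / y))
      - (exp (-(l * x)) - exp (-(l * y))) * (F x / x) := by
    unfold Gf; field_simp; ring
  have a5 : (y - x) / y ≤ (y - x) / x := div_le_div_of_nonneg_left hd hx hxy
  have b1 : |exp (-(l * y)) * ((F y - F x) / y)| ≤ exp (-(l * x)) * ((y - x) / x) := by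
    rw [abs_mul, abs_of_pos a3, abs_div, abs_of_pos hy]
    exact mul_le_mul a1 ((div_le_div_of_nonneg_right hF hy.le).trans a5) (by positivity)
      (exp_pos _).le
  have b2 : |exp (-(l * y)) * (F x / x * ((y - x) / y))| ≤ exp (-(l * x)) * ((y - x) / x) := by
    rw [abs_mul, abs_of_pos a3, abs_mul, abs_of_nonneg (div_nonneg hd hy.le)]
    exact mul_le_mul a1 ((mul_le_of_le_one_left (by positivity) (a4.trans hμ)).trans a5)
      (by positivity) (exp_pos _).le
  have b3 : |(exp (-(l * x)) - exp (-(l * y))) * (F x / x)|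
      ≤ exp (-(l * x)) * (l * (y - x)) * μ := by
    rw [abs_mul, abs_of_nonneg (by linarith)]
    exact mul_le_mul a2 a4 (abs_nonneg _) (by positivity)
  rw [e]
  refine ((abs_sub _ _).trans (add_le_add ((abs_sub _ _).trans (add_le_add b1 b2)) b3)).trans_eq ?_
  ring

noncomputable def mj (n : ℕ) : ℝ := 1 / (n * log n ^ 2) + 1 / (n : ℝ) ^ 2

theorem mj_summable : Summable mj :=
  ((summable_nat_add_iff (f := fun n : ℕ => 1 / (n * log n ^ 2)) 3).1 maj_summable).add
    (summable_one_div_nat_pow.2 one_lt_two)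

theorem PL : ∃ C : ℝ, 0 ≤ C ∧ ∀ (s t μ : ℝ) (F : ℝ → ℝ) (a b : ℕ), 1 ≤ s → s ≤ 2 → 0 < t →
    3 ≤ a → a ≤ b → (∀ x y, |F x - F y| ≤ |x - y|) → 0 ≤ μ → μ ≤ 1 →
    (∀ u, t * log a ≤ u → |F u| ≤ μ * u) →
    |∑ p ∈ (Ico a b).filter Nat.Prime, (p : ℝ) ^ (-s) * F (t * log p)
      - ∫ u in t * log a..t * log b, Gf ((s - 1) / t) F u|
      ≤ C * (t * (exp (-((s - 1) * log a)) * (1 / log a + μ))) := by
  obtain ⟨C, hC, hE⟩ := MP_d6ddbd_nt.L.pnt 2
  have hM : 0 ≤ ∑' n, mj n := tsum_nonneg fun n => by unfold mj; positivity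
  refine ⟨(6 * C + 3) * ∑' n, mj n + 2 * C, by positivity,
    fun s t μ F a b hs hs2 ht ha hab hF hμ0 hμ hFμ => ?_⟩
  set E : ℕ → ℝ := fun y => ∑ R ∈ range y, MP_d6ddbd_nt.L.th R - y with hEd
  replace hE : ∀ y : ℕ, 3 ≤ y → |E y| ≤ C * y / log y ^ 2 := hE
  set l := (s - 1) / t with hl
  have hl0 : 0 ≤ l := div_nonneg (by linarith) ht.le
  have hFc : Continuous F := (LipschitzWith.of_dist_le' (K := 1) fun x y => by
    simpa [Real.dist_eq] using hF x y).continuous
  have hLa := one_le_log ha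
  set e := exp (-((s - 1) * log a)) with he
  set ν := 1 / log a + μ with hν
  have hν0 : 0 ≤ ν := by positivity
  have hνμ : μ ≤ ν := le_add_of_nonneg_left (by positivity)
  have e0 : 0 < e := exp_pos _
  set w : ℕ → ℝ := fun n => t * Gf l F (t * log n) / n with hw
  have mono : ∀ {m n : ℕ}, 3 ≤ m → m ≤ n → log m ≤ log n := fun {m n} hm h =>
    log_le_log (by positivity) (by exact_mod_cast h)
  have ex : ∀ u, t * log a ≤ u → exp (-(l * u)) ≤ e := fun u hu => exp_le_exp.2 (by
    have := mul_le_mul_of_nonneg_left hu hl0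
    rw [hl, ← mul_assoc, div_mul_cancel₀ _ ht.ne'] at this
    linarith)
  have g1 : ∀ u, t * log a ≤ u → |Gf l F u| ≤ e * ν := fun u hu =>
    (Gf_abs (lt_of_lt_of_le (by positivity) hu) (hFμ u hu)).trans (by
      rw [mul_comm]; exact mul_le_mul (ex u hu) hνμ hμ0 e0.le)
  have bd : ∀ n : ℕ, a ≤ n → |E n * w n| ≤ C * (t * (e * ν)) := fun n hn => by
    have h3 := ha.trans hn
    have h0 : (0 : ℝ) < n := by positivity
    have hL := one_le_log h3
    have := g1 (t * log n) (mul_le_mul_of_nonneg_left (mono ha hn) ht.le)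
    simp only [hw]
    rw [abs_mul, abs_div, abs_mul, abs_of_pos ht, Nat.abs_cast]
    calc _ ≤ C * n / 1 * (t * (e * ν) / n) := by
          gcongr
          exact (hE n h3).trans (div_le_div_of_nonneg_left (by positivity) one_pos (by nlinarith))
      _ = _ := by field_simp
  have st : ∀ n : ℕ, a ≤ n → |MP_d6ddbd_nt.L.th n * w n
      - (∫ u in t * log n..t * log ((n + 1 : ℕ) : ℝ), Gf l F u) - (E (n + 1) * w (n + 1) - E n * w n)|
      ≤ (6 * C + 3) * (t * (e * ν)) * mj n := fun n hn => by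
    have h3 := ha.trans hn
    have h3' : (3 : ℝ) ≤ n := by exact_mod_cast h3
    have h0 : (0 : ℝ) < n := by positivity
    have hL := one_le_log h3
    have hx := mul_le_mul_of_nonneg_left (mono ha hn) ht.le
    have hx0 : 0 < t * log n := by positivity
    obtain ⟨d1, d2, d3⟩ := log_step h3
    have hxy : t * log n ≤ t * log ((n + 1 : ℕ) : ℝ) := by nlinarith
    have g2 : ∀ y, t * log n ≤ y → y ≤ t * log ((n + 1 : ℕ) : ℝ) →
        |Gf l F y - Gf l F (t * log n)| ≤ 2 * (e * ν) / n := fun y y1 y2 => by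
      refine (Gf_step hl0 hx0 y1 hμ (hF _ _) (hFμ _ hx)).trans ?_
      have b1 : y - t * log n ≤ t * (1 / n) := by nlinarith
      have b2 : (2 / (t * log n) + l * μ) * t ≤ 2 * ν := by
        have : 1 / log n ≤ 1 / log a := one_div_le_one_div_of_le (by linarith) (mono ha hn)
        have e : (2 / (t * log n) + l * μ) * t = 2 * (1 / log n) + (s - 1) * μ := by
          rw [hl]; field_simp
        rw [e, hν]; nlinarith
      calc _ ≤ e * ((2 / (t * log n) + l * μ) * (t * (1 / n))) :=
            mul_le_mul (ex _ hx) (mul_le_mul_of_nonneg_left b1 (by positivity))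
              (mul_nonneg (by positivity) (by linarith)) e0.le
        _ = e * ((2 / (t * log n) + l * μ) * t) / n := by ring
        _ ≤ e * (2 * ν) / n := by gcongr
        _ = _ := by ring
    have e1 : |E (n + 1)| ≤ 2 * C * n / log n ^ 2 := by
      refine (hE (n + 1) (by omega)).trans (div_le_div₀ (by positivity) ?_ (by positivity) ?_)
      · push_cast; nlinarith
      · gcongr; omega
    have c0 := g1 _ hx
    have c1 := g1 _ (hx.trans hxy)
    have c2 := g2 _ hxy le_rfl
    have c3 := norm_integral_le_of_norm_le_const (a := t * log n) (b := t * log ((n + 1 : ℕ) : ℝ))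
      (f := fun y => Gf l F y - Gf l F (t * log n)) (C := 2 * (e * ν) / n) fun y hy => by
        rw [Set.uIoc_of_le hxy] at hy
        exact g2 y hy.1.le hy.2
    rw [integral_sub (Gf_ii l hFc hx0 hxy) (continuous_const.intervalIntegrable _ _),
      intervalIntegral.integral_const, smul_eq_mul, ← mul_sub, Real.norm_eq_abs,
      abs_of_nonneg (mul_nonneg ht.le d1)] at c3
    have eE : MP_d6ddbd_nt.L.th n = E (n + 1) - E n + 1 := by
      simp only [hEd, sum_range_succ]; push_cast; ring
    set d := log ((n + 1 : ℕ) : ℝ) - log n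
    set I := ∫ u in t * log n..t * log ((n + 1 : ℕ) : ℝ), Gf l F u
    have w0 : w n = t * Gf l F (t * log n) / n := rfl
    have w1 : w (n + 1) = t * Gf l F (t * log ((n + 1 : ℕ) : ℝ)) / (n + 1) := by
      simp only [hw, Nat.cast_add_one n]
    set G := Gf l F (t * log n)
    set G' := Gf l F (t * log ((n + 1 : ℕ) : ℝ))
    have k1 : |w (n + 1) - w n| ≤ 3 * (t * (e * ν)) / (n : ℝ) ^ 2 := by
      rw [w0, w1, show t * G' / (n + 1) - t * G / n = t * (G' - G) / n - t * G' / (n * (n + 1)) by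
        field_simp; ring]
      refine (abs_sub _ _).trans ?_
      rw [abs_div, abs_div, abs_mul, abs_mul, abs_of_pos ht, Nat.abs_cast,
        abs_of_pos (by positivity : (0 : ℝ) < n * (n + 1))]
      calc _ ≤ t * (2 * (e * ν) / n) / n + t * (e * ν) / (n * n) := by
            gcongr
            linarith
        _ = _ := by field_simp; ring
    have k2 : |E (n + 1) * (w (n + 1) - w n)| ≤ 6 * C * (t * (e * ν)) * (1 / (n * log n ^ 2)) := by
      rw [abs_mul]
      refine (mul_le_mul e1 k1 (abs_nonneg _) (by positivity)).trans_eq ?_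
      field_simp; ring
    have k3 : |t * (1 / n - d) * G| ≤ t * (e * ν) * (1 / (n : ℝ) ^ 2) := by
      rw [abs_mul, abs_of_nonneg (mul_nonneg ht.le (by linarith))]
      calc _ ≤ t * (1 / (n : ℝ) ^ 2) * (e * ν) := by
            gcongr
            linarith
        _ = _ := by ring
    have k4 : |I - t * d * G| ≤ 2 * (t * (e * ν)) * (1 / (n : ℝ) ^ 2) := by
      refine c3.trans ?_
      calc _ ≤ 2 * (e * ν) / n * (t * (1 / n)) := by gcongr
        _ = _ := by field_simp
    rw [eE, show (E (n + 1) - E n + 1) * w n - I - (E (n + 1) * w (n + 1) - E n * w n)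
      = -(E (n + 1) * (w (n + 1) - w n)) + (w n - I) by ring,
      show w n - I = t * (1 / n - d) * G - (I - t * d * G) by rw [w0]; ring]
    refine (abs_add_le _ _).trans ((add_le_add (abs_neg _).le (abs_sub _ _)).trans ?_)
    have q0 : 0 ≤ t * (e * ν) := by positivity
    have q1 : 0 ≤ C * (t * (e * ν)) * (1 / (n : ℝ) ^ 2) := by positivity
    have q2 : 0 ≤ t * (e * ν) * (1 / (n * log n ^ 2)) := by positivity
    rw [mj]
    linarith
  have key : ∀ b : ℕ, a ≤ b → |∑ n ∈ Ico a b, MP_d6ddbd_nt.L.th n * w n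
      - (∫ u in t * log a..t * log b, Gf l F u) - (E b * w b - E a * w a)|
      ≤ (6 * C + 3) * (t * (e * ν)) * ∑ n ∈ Ico a b, mj n := fun b hb => by
    induction b, hb using Nat.le_induction with
    | base => simp
    | succ n hn ih =>
      have hx := mul_le_mul_of_nonneg_left (mono ha hn) ht.le
      have hy := mul_le_mul_of_nonneg_left (mono (ha.trans hn) (Nat.le_succ n)) ht.le
      have := st n hn
      rw [sum_Ico_succ_top hn, sum_Ico_succ_top hn, ← integral_add_adjacent_intervals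
        (Gf_ii l hFc (by positivity) hx) (Gf_ii l hFc (lt_of_lt_of_le (by positivity) hx) hy), mul_add]
      rw [abs_le] at ih this ⊢
      constructor <;> linarith [ih.1, ih.2, this.1, this.2]
  have fin : ∑ p ∈ (Ico a b).filter Nat.Prime, (p : ℝ) ^ (-s) * F (t * log p)
      = ∑ n ∈ Ico a b, MP_d6ddbd_nt.L.th n * w n := by
    rw [sum_filter]
    refine sum_congr rfl fun n hn => ?_
    have h3 := ha.trans (mem_Ico.1 hn).1
    have h0 : (0 : ℝ) < n := by positivity
    have hL := one_le_log h3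
    unfold MP_d6ddbd_nt.L.th
    split_ifs
    · simp only [hw, Gf]
      rw [rpow_def_of_pos h0, show log n * -s = -(l * (t * log n)) - log n by
        rw [hl]; field_simp; ring, exp_sub, exp_log h0]
      field_simp
    · simp
  have k1 := key b hab
  have k2 := mul_le_mul_of_nonneg_left (mj_summable.sum_le_tsum (Ico a b)
    fun n _ => by unfold mj; positivity) (by positivity : 0 ≤ (6 * C + 3) * (t * (e * ν)))
  have k3 := bd a le_rfl
  have k4 := bd b hab
  rw [fin]
  rw [abs_le] at k1 k3 k4 ⊢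
  constructor <;> linarith [k1.1, k1.2, k3.1, k3.2, k4.1, k4.2]

end Pool.Agent.Lib.MP_3ba922_nt.SB
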