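import Pool.Agent.Lib.MP_3ba922_nt.Edge5
import Pool.Agent.Lib.MP_3ba922_nt.SB.Osc
import Pool.Agent.Lib.MP_d6ddbd_nt.L.Pnt

/-! The least modulus as an Euler product, and its uniform convergence up to `re c = -1`. -/

set_option autoImplicit false

namespace Pool.Agent.Lib.MP_3ba922_nt.SB

open Finset Filter Topology Real Pool.Agent.Lib.MP_3ba922_nt

/-- the least modulus of a local factor -/
noncomputable def mm (z : ℂ) : ℝ := ⨅ k : ℕ, ‖fk z k‖

theorem mm_le (z : ℂ) (k : ℕ) : mm z ≤ ‖fk z k‖ :=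
  ciInf_le ⟨0, by rintro _ ⟨n, rfl⟩; exact norm_nonneg _⟩ k

theorem mm_le_one (z : ℂ) : mm z ≤ 1 := by simpa [fk] using mm_le z 0

theorem mm_pos {z : ℂ} (hz : ‖z‖ ≤ 1 / 2) : 0 < mm z :=
  lt_of_lt_of_le (by norm_num) (le_ciInf fun k => third_le_fk z hz k)

theorem fk_lip {z w : ℂ} (hz : ‖z‖ ≤ 1 / 2) (hw : ‖w‖ ≤ 1 / 2) (k : ℕ) :
    ‖fk z k - fk w k‖ ≤ 4 * ‖z - w‖ := by
  induction k with
  | zero => simp [fk]
  | succ k ih =>
    have h : ‖fk w k‖ ≤ 2 := norm_geom_le w hw (k + 1)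
    rw [fk_succ, fk_succ, show 1 + z * fk z k - (1 + w * fk w k)
      = z * (fk z k - fk w k) + (z - w) * fk w k by ring]
    refine (norm_add_le _ _).trans ?_
    rw [norm_mul, norm_mul]
    nlinarith [norm_nonneg z, norm_nonneg (z - w), norm_nonneg (fk z k - fk w k)]

theorem mm_cont : ContinuousOn mm {z | ‖z‖ ≤ 1 / 2} := by
  refine (LipschitzOnWith.of_le_add_mul' 4 fun z hz w hw => ?_).continuousOn
  rw [← sub_le_iff_le_add, dist_eq_norm]
  refine le_ciInf fun k => ?_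
  linarith [mm_le z k, fk_lip hz hw k, norm_sub_norm_le (fk z k) (fk w k)]

theorem zz_half {s : ℝ} (t : ℝ) (hs : 1 ≤ s) {p : ℕ} (hp : p.Prime) : ‖zz s t p‖ ≤ 1 / 2 :=
  zz_le_inv s t hs p 2 one_le_two (by exact_mod_cast hp.two_le)

theorem log_mm {s : ℝ} (t : ℝ) (hs : 1 ≤ s) {p : ℕ} (b0 : p.Prime) :
    |log (mm (zz s t p)) + (p : ℝ) ^ (-s) * max 0 (-cos (t * log p))| ≤ 18 * (p : ℝ) ^ (-2 : ℝ) := by
  have h0 := mm_pos (zz_half t hs b0)
  have b2 : (0 : ℝ) ≤ (p : ℝ) ^ (-s) := by positivity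
  have b3 : (0 : ℝ) ≤ (p : ℝ) ^ (-2 : ℝ) := by positivity
  have b6 := mul_nonneg b2 (le_max_left 0 (-cos (t * log p)))
  have h1 : exp (-((p : ℝ) ^ (-s) * max 0 (-cos (t * log p)) + 18 * (p : ℝ) ^ (-2 : ℝ)))
      ≤ mm (zz s t p) := le_ciInf fun k => by
    have b1 := third_le_fk _ (zz_half t hs b0) k
    rw [← le_log_iff_exp_le (by linarith)]
    rcases Nat.eq_zero_or_pos k with rfl | hk
    · simp only [fk, zero_add, range_one, sum_singleton, pow_zero, norm_one, log_one]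
      linarith
    by_cases h : 4 ≤ p
    · have b4 := norm_log_fk _ (zz_le_inv s t hs p 4 (by norm_num) (by exact_mod_cast h)) _ hk
      have b5 := (abs_le.mp ((Complex.abs_re_le_norm _).trans b4)).1
      rw [Complex.sub_re, Complex.log_re, re_zz'] at b5
      linarith [zz_sq s t hs p b0.pos,
        mul_le_mul_of_nonneg_left (le_max_right 0 (-cos (t * log p))) b2]
    · have b4 : (3 : ℝ) ^ (-2 : ℝ) ≤ (p : ℝ) ^ (-2 : ℝ) :=
        Real.rpow_le_rpow_of_nonpos (by exact_mod_cast b0.pos)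
          (by exact_mod_cast Nat.lt_succ_iff.mp (not_le.mp h)) (by norm_num)
      rw [Real.rpow_neg (by norm_num), Real.rpow_two] at b4
      have b5 := log_le_log (by norm_num) b1
      rw [one_div, log_inv] at b5
      linarith [log_le_sub_one_of_pos (show (0 : ℝ) < 3 by norm_num)]
  have h2 : mm (zz s t p) ≤ exp ((p : ℝ) ^ (-2 : ℝ) - (p : ℝ) ^ (-s) * max 0 (-cos (t * log p))) := by
    by_cases h : cos (t * log p) < 0
    · refine (mm_le _ 1).trans ?_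
      refine (pow_le_pow_iff_left₀ (norm_nonneg _) (exp_pos _).le two_ne_zero).mp ?_
      rw [← exp_nat_mul, max_eq_right (by linarith)]
      refine le_trans ?_ (add_one_le_exp _)
      have b1 := zz_sq s t hs p b0.pos
      have b2 := re_zz' s t p
      rw [Complex.sq_norm, Complex.normSq_apply] at b1 ⊢
      simp only [fk, sum_range_succ, range_zero, sum_empty, pow_zero, pow_one, zero_add,
        Complex.add_re, Complex.add_im, Complex.one_re, Complex.one_im]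
      push_cast
      linarith
    · rw [max_eq_left (by linarith)]
      exact (mm_le_one _).trans (one_le_exp (by linarith))
  rw [← le_log_iff_exp_le h0] at h1
  rw [← log_le_iff_le_exp h0] at h2
  rw [abs_le]
  constructor <;> linarith

theorem rp_half {s : ℝ} (hs : 1 ≤ s) {p : ℕ} (hp : p.Prime) : (p : ℝ) ^ (-s) ≤ 1 / 2 :=
  norm_zz s 0 p ▸ zz_half 0 hs hp

theorem log_one_sub {s : ℝ} (hs : 1 ≤ s) {p : ℕ} (hp : p.Prime) :
    |log (1 - (p : ℝ) ^ (-s)) + (p : ℝ) ^ (-s)| ≤ 2 * (p : ℝ) ^ (-2 : ℝ) := by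
  have h1 := rp_half hs hp
  have h2 := zz_sq s 0 hs p hp.pos
  rw [norm_zz] at h2
  have h3 : (0 : ℝ) ≤ (p : ℝ) ^ (-s) := by positivity
  set x := (p : ℝ) ^ (-s)
  have a1 := log_le_sub_one_of_pos (x := 1 - x) (by linarith)
  have a2 := one_sub_inv_le_log_of_pos (x := 1 - x) (by linarith)
  have a3 : (1 - x)⁻¹ ≤ 1 + x + 2 * x ^ 2 := by
    rw [inv_eq_one_div, div_le_iff₀ (by linarith)]
    nlinarith [mul_nonneg (sq_nonneg x) (by linarith : 0 ≤ 1 - 2 * x)]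
  rw [abs_le]
  constructor <;> nlinarith [sq_nonneg x]

/-- the logarithm of the normalised local factor -/
noncomputable def aa (q : ℝ × ℝ) (n : ℕ) : ℝ :=
  if n.Prime then log (mm (zz q.1 q.2 n)) - 1 / π * log (1 - (n : ℝ) ^ (-q.1)) else 0

theorem aa_cont (n : ℕ) : ContinuousOn (fun q => aa q n) {q | 1 ≤ q.1} := by
  unfold aa
  split_ifs with h
  · have h0 : (n : ℝ) ≠ 0 := by exact_mod_cast h.ne_zero
    have c1 : Continuous fun q : ℝ × ℝ => (n : ℝ) ^ (-q.1) :=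
      (continuous_const_rpow h0).comp (by fun_prop)
    have c2 : Continuous fun q : ℝ × ℝ => zz q.1 q.2 n := by unfold zz; fun_prop
    refine ((mm_cont.comp c2.continuousOn fun q hq => zz_half q.2 hq h).log
      fun q hq => (mm_pos (zz_half q.2 hq h)).ne').sub (continuousOn_const.mul
      ((continuous_const.sub c1).continuousOn.log fun q hq => ?_))
    exact (sub_pos.2 ((rp_half hq h).trans_lt (by norm_num))).ne'
  · exact continuousOn_const

theorem aa_near {q : ℝ × ℝ} (hs : 1 ≤ q.1) {n : ℕ} (hn : 3 ≤ n) :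
    |aa q n - MP_d6ddbd_nt.L.th n * ww q.1 q.2 n| ≤ 20 * (1 / (n : ℝ) ^ 2) := by
  unfold aa MP_d6ddbd_nt.L.th
  split_ifs with h
  · have h0 : (0 : ℝ) < n := by exact_mod_cast h.pos
    have hL := one_le_log hn
    have e : log n * ww q.1 q.2 n = (n : ℝ) ^ (-q.1) * gg (q.2 * log n) := by
      rw [ww, ps, rpow_def_of_pos h0, show log n * -q.1 = -((q.1 - 1) * log n) - log n by ring,
        exp_sub, exp_log h0]
      field_simp
    have e2 : (n : ℝ) ^ (-2 : ℝ) = 1 / (n : ℝ) ^ 2 := by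
      rw [rpow_neg h0.le, rpow_two, one_div]
    have h1 := log_mm q.2 hs h
    have h2 := log_one_sub hs h
    have h3 : |1 / π * (log (1 - (n : ℝ) ^ (-q.1)) + (n : ℝ) ^ (-q.1))|
        ≤ 2 * (n : ℝ) ^ (-2 : ℝ) := by
      rw [abs_mul, abs_of_nonneg (by positivity : 0 ≤ 1 / π)]
      refine (mul_le_of_le_one_left (abs_nonneg _) ?_).trans h2
      rw [div_le_one pi_pos]; linarith [pi_gt_three]
    rw [e, gg, ← e2]
    rw [abs_le] at h1 h3 ⊢
    constructor <;> linarith [h1.1, h1.2, h3.1, h3.2]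
  · simp

theorem VV_cont (E : ℕ → ℝ) (n : ℕ) : ContinuousOn (fun q : ℝ × ℝ => VV E q.1 q.2 n) {q | q.2 ≠ 0} := by
  have := gg_cont
  have := GG_cont
  unfold VV ww ps
  exact (by fun_prop : Continuous _).continuousOn.add
    ((by fun_prop : Continuous _).continuousOn.div continuous_snd.continuousOn fun q hq => hq)

theorem conv {τ T : ℝ} (hτ : 0 < τ) : ∃ A : ℝ × ℝ → ℝ,
    ContinuousOn A {q | 1 ≤ q.1 ∧ τ ≤ q.2 ∧ q.2 ≤ T} ∧ ∀ q : ℝ × ℝ, 1 ≤ q.1 → τ ≤ q.2 → q.2 ≤ T →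
      Tendsto (fun N => ∑ n ∈ range N, aa q n) atTop (𝓝 (A q)) := by
  obtain ⟨C, hC, hE⟩ := MP_d6ddbd_nt.L.pnt 2
  obtain ⟨B, hB0, hB⟩ := GG_bdd
  set E : ℕ → ℝ := fun y => ∑ R ∈ range y, MP_d6ddbd_nt.L.th R - y with hEd
  set r : ℕ → ℝ × ℝ → ℝ := fun n q =>
    aa q (n + 3) - (VV E q.1 q.2 (n + 1 + 3) - VV E q.1 q.2 (n + 3)) with hr
  set u : ℕ → ℝ := fun n => (2 * C * (3 + T) + 2 * B / τ) * maj n
    + (21 + T) * (1 / ((n + 3 : ℕ) : ℝ) ^ 2) with hu
  have su : Summable u := (maj_summable.mul_left _).add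
    (((summable_nat_add_iff 3).2 (summable_one_div_nat_pow.2 one_lt_two)).mul_left _)
  have ru : ∀ n q, q ∈ {q : ℝ × ℝ | 1 ≤ q.1 ∧ τ ≤ q.2 ∧ q.2 ≤ T} → ‖r n q‖ ≤ u n := fun n q hq => by
    have h1 := aa_near hq.1 (n := n + 3) (by omega)
    have h2 := VV_step (E := E) hC hE hB hτ hq.1 hq.2.1 hq.2.2 (n := n + 3) (by omega)
    have e : E (n + 3 + 1) - E (n + 3) + 1 = MP_d6ddbd_nt.L.th (n + 3) := by
      simp only [hEd, sum_range_succ _ (n + 3)]; push_cast; ring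
    rw [e, show n + 3 + 1 = n + 1 + 3 by ring] at h2
    simp only [hr, hu, maj, Real.norm_eq_abs]
    rw [abs_le] at h1 h2 ⊢
    constructor <;> linarith [h1.1, h1.2, h2.1, h2.2]
  have s1 : {q : ℝ × ℝ | 1 ≤ q.1 ∧ τ ≤ q.2 ∧ q.2 ≤ T} ⊆ {q | 1 ≤ q.1} := fun q hq => hq.1
  have s2 : {q : ℝ × ℝ | 1 ≤ q.1 ∧ τ ≤ q.2 ∧ q.2 ≤ T} ⊆ {q | q.2 ≠ 0} :=
    fun q hq => (hτ.trans_le hq.2.1).ne'
  refine ⟨fun q => ∑' n, r n q + (∑ n ∈ range 3, aa q n - VV E q.1 q.2 3), ?_, fun q a1 a2 a3 => ?_⟩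
  · exact (continuousOn_tsum (fun n => ((aa_cont _).mono s1).sub
      (((VV_cont E _).mono s2).sub ((VV_cont E _).mono s2))) su ru).add
      ((continuousOn_finsetSum _ fun n _ => (aa_cont n).mono s1).sub ((VV_cont E 3).mono s2))
  have t1 := (Summable.of_norm_bounded su fun n => ru n q ⟨a1, a2, a3⟩).hasSum.tendsto_sum_nat
  have t2 : Tendsto (fun N : ℕ => VV E q.1 q.2 (N + 3)) atTop (𝓝 0) :=
    squeeze_zero_norm (fun N => VV_le (E := E) hC hE hB hτ a1 a2 (n := N + 3) (by omega))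
      (((tendsto_log_atTop.comp tendsto_natCast_atTop_atTop).comp
        (tendsto_add_atTop_nat 3)).const_div_atTop _)
  rw [← tendsto_add_atTop_iff_nat 3]
  have t3 := (t1.add t2).add_const (∑ n ∈ range 3, aa q n - VV E q.1 q.2 3)
  rw [add_zero] at t3
  refine t3.congr fun N => ?_
  rw [add_comm N 3, sum_range_add]
  simp only [hr, sum_sub_distrib]
  rw [← sum_sub_distrib, sum_range_sub (fun n => VV E q.1 q.2 (n + 3))]
  simp only [add_comm 3, zero_add]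
  ring

theorem low_eq (s t l : ℝ) (hs : 1 ≤ s)
    (h : Tendsto (fun N => ∏ p ∈ Nat.primesBelow N, mm (zz s t p)) atTop (𝓝 l)) :
    low ((-s : ℝ) + (t : ℝ) * Complex.I) = l := by
  have hp : ∀ {N p : ℕ}, p ∈ Nat.primesBelow N → p.Prime := fun h => Nat.prime_of_mem_primesBelow h
  refine le_antisymm (ge_of_tendsto' h fun N => ?_) (le_low _ _ fun v hv => ?_)
  · have c : Tendsto (fun η : ℝ => ∏ p ∈ Nat.primesBelow N, η * mm (zz s t p)) (𝓝[>] 1)
        (𝓝 (∏ p ∈ Nat.primesBelow N, 1 * mm (zz s t p))) :=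
      ((by fun_prop : Continuous fun η : ℝ => ∏ p ∈ Nat.primesBelow N, η * mm (zz s t p)).tendsto
        1).mono_left nhdsWithin_le_nhds
    simp only [one_mul] at c
    refine ge_of_tendsto c (eventually_nhdsWithin_of_forall fun η hη => ?_)
    have a : ∀ p ∈ Nat.primesBelow N, ∃ k, ‖fk (zz s t p) k‖ < η * mm (zz s t p) := fun p hp' =>
      exists_lt_of_ciInf_lt (lt_mul_of_one_lt_left (mm_pos (zz_half t hs (hp hp'))) hη)
    choose! k hk using a
    refine (low_le _ _ (prod_mem' s t (Nat.primesBelow N) (fun p => hp) k)).trans ?_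
    rw [norm_prod]
    exact prod_le_prod (fun _ _ => norm_nonneg _) fun p hp' => (hk p hp').le
  · obtain ⟨S, k, hk, rfl⟩ := exists_prod' s t v hv
    refine le_of_tendsto h ((eventually_gt_atTop (S.sup id)).mono fun N hN => ?_)
    rw [norm_prod]
    refine le_trans (prod_le_prod_of_subset_of_le_one (s := S) (fun p hp' => Nat.mem_primesBelow.2
      ⟨(le_sup (f := id) hp').trans_lt hN, (hk p hp').1⟩)
      (fun p hp' => (mm_pos (zz_half t hs (hp hp'))).le) fun p _ _ => mm_le_one _) ?_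
    exact prod_le_prod (fun p hp' => (mm_pos (zz_half t hs (hk p hp').1)).le) fun p _ => mm_le _ _

theorem exp_aa {q : ℝ × ℝ} (hs : 1 ≤ q.1) (N : ℕ) : exp (∑ n ∈ range N, aa q n)
    = ∏ p ∈ Nat.primesBelow N, mm (zz q.1 q.2 p) / (1 - (p : ℝ) ^ (-q.1)) ^ (1 / π) := by
  rw [exp_sum, Nat.primesBelow, prod_filter]
  refine prod_congr rfl fun n _ => ?_
  unfold aa
  split_ifs with h
  · rw [exp_sub, exp_log (mm_pos (zz_half _ hs h)),
      rpow_def_of_pos (sub_pos.2 ((rp_half hs h).trans_lt (by norm_num))), mul_comm]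
  · exact exp_zero

theorem low_zeta {q : ℝ × ℝ} {a : ℝ} (hs : 1 < q.1)
    (h : Tendsto (fun N => ∑ n ∈ range N, aa q n) atTop (𝓝 a)) :
    low ((-q.1 : ℝ) + (q.2 : ℝ) * Complex.I) = exp a / ‖riemannZeta q.1‖ ^ (1 / π) := by
  have hp : ∀ {N p : ℕ}, p ∈ Nat.primesBelow N → 0 < 1 - (p : ℝ) ^ (-q.1) := fun h =>
    sub_pos.2 ((rp_half hs.le (Nat.prime_of_mem_primesBelow h)).trans_lt (by norm_num))
  have z0 : 0 < ‖riemannZeta q.1‖ :=
    norm_pos_iff.2 (riemannZeta_ne_zero_of_one_le_re (by simpa using hs.le))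
  have z1 := (riemannZeta_eulerProduct (s := q.1) (by simpa using hs)).norm
  have z2 := ((continuous_exp.tendsto a).comp h).div (z1.rpow_const (p := 1 / π) (Or.inl z0.ne'))
    (rpow_pos_of_pos z0 _).ne'
  refine low_eq _ _ _ hs.le (z2.congr fun N => ?_)
  simp only [Pi.div_apply, Function.comp, exp_aa hs.le]
  rw [norm_prod, ← finsetProd_rpow _ _ fun _ _ => norm_nonneg _, ← prod_div_distrib]
  refine prod_congr rfl fun p h' => ?_
  have e : (1 - (p : ℂ) ^ (-(q.1 : ℂ))) = ((1 - (p : ℝ) ^ (-q.1) : ℝ) : ℂ) := by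
    rw [Complex.ofReal_sub, Complex.ofReal_cpow (Nat.cast_nonneg p)]; simp
  have := rpow_pos_of_pos (hp h') (1 / π)
  rw [e, norm_inv, Complex.norm_real, Real.norm_of_nonneg (hp h').le, inv_rpow (hp h').le]
  field_simp

theorem sharp {t0 : ℝ} (ht : 0 < t0) : ∃ K : ℝ, 0 < K ∧
    Tendsto (fun N => ∏ p ∈ Nat.primesBelow N, mm (zz 1 t0 p) / (1 - (p : ℝ) ^ (-1 : ℝ)) ^ (1 / π))
      atTop (𝓝 K) ∧
    Tendsto (fun q : ℝ × ℝ => (1 - rad ((-q.1 : ℝ) + (q.2 : ℝ) * Complex.I)) / (q.1 - 1) ^ (1 / π))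
      (𝓝[{q | 1 < q.1}] (1, t0)) (𝓝 K) := by
  obtain ⟨A, hA, hl⟩ := conv (τ := t0 / 2) (T := 2 * t0) (by linarith)
  refine ⟨exp (A (1, t0)), exp_pos _, ((continuous_exp.tendsto _).comp
    (hl (1, t0) le_rfl (by linarith) (by linarith))).congr fun N => exp_aa (q := (1, t0)) le_rfl N, ?_⟩
  have ev : ∀ᶠ q : ℝ × ℝ in 𝓝[{q | 1 < q.1}] (1, t0), 1 ≤ q.1 ∧ t0 / 2 ≤ q.2 ∧ q.2 ≤ 2 * t0 := by
    have c := (continuous_snd.tendsto ((1, t0) : ℝ × ℝ)).mono_left
      (nhdsWithin_le_nhds (s := {q : ℝ × ℝ | 1 < q.1}))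
    filter_upwards [self_mem_nhdsWithin, c.eventually (le_mem_nhds (by linarith : t0 / 2 < t0)),
      c.eventually (ge_mem_nhds (by linarith : t0 < 2 * t0))] with q a b c using ⟨le_of_lt a, b, c⟩
  have t1 : Tendsto A (𝓝[{q | 1 < q.1}] (1, t0)) (𝓝 (A (1, t0))) :=
    (hA (1, t0) ⟨le_rfl, by linarith, by linarith⟩).tendsto.mono_left
      (le_inf nhdsWithin_le_nhds (le_principal_iff.2 ev))
  have t2 : Tendsto (fun q : ℝ × ℝ => (q.1 : ℂ)) (𝓝[{q | 1 < q.1}] (1, t0)) (𝓝[≠] 1) := by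
    refine tendsto_nhdsWithin_iff.2 ⟨?_, eventually_nhdsWithin_of_forall fun q hq h => ?_⟩
    · simpa using ((by fun_prop : Continuous fun q : ℝ × ℝ => (q.1 : ℂ)).tendsto (1, t0)).mono_left
        nhdsWithin_le_nhds
    · exact (ne_of_gt hq) (by exact_mod_cast Set.mem_singleton_iff.1 h)
  have t3 := ((riemannZeta_residue_one.comp t2).norm.rpow_const (p := 1 / π) (Or.inl (by simp)))
  have t4 := (ratio ht).mul (((continuous_exp.tendsto _).comp t1).div t3 (by simp))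
  rw [norm_one, one_rpow, div_one, one_mul] at t4
  refine t4.congr' ?_
  filter_upwards [self_mem_nhdsWithin, ev] with q hq h
  have h1 : 0 < q.1 - 1 := sub_pos.2 hq
  have h2 := (log_low q.1 q.2 hq).1
  have h3 := low_zeta hq (hl q h.1 h.2.1 h.2.2)
  have e : ‖(q.1 : ℂ) - 1‖ = q.1 - 1 := by
    rw [← Complex.ofReal_one, ← Complex.ofReal_sub, Complex.norm_real, Real.norm_of_nonneg h1.le]
  simp only [Pi.div_apply, Function.comp]
  rw [norm_mul, e, mul_rpow h1.le (norm_nonneg _), mul_comm ((q.1 - 1) ^ _), ← div_div, ← h3]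
  field_simp

theorem mm_eq (c : ℂ) (hc : c.re = -1) {p : ℕ} (hp : p.Prime) :
    mm (zz 1 |c.im| p) = ⨅ a : ℕ, ‖sigmaC c (p ^ a)‖ := by
  refine iInf_congr fun a => ?_
  rw [zz, ← cpow_eq 1 |c.im| p hp.pos, ← sigmaC_prime_pow _ p a hp]
  rcases abs_choice c.im with h | h <;> rw [h, ← hc]
  · rw [Complex.re_add_im]
  · have e : ((c.re : ℝ) + (-c.im : ℝ) * Complex.I : ℂ) = (starRingEnd ℂ) c := by
      apply Complex.ext <;> simp
    rw [e, sigmaC_conj, Complex.norm_conj]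

end Pool.Agent.Lib.MP_3ba922_nt.SB
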