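import Pool.Agent.Lib.MP_3ba922_nt.SB.Cor2
import Pool.Agent.Lib.MP_3ba922_nt.SB.Loc

/-! Rounding, the upper bound and the windows near the corner `c = -1`. -/

set_option autoImplicit false

namespace Pool.Agent.Lib.MP_3ba922_nt.SB

open Finset Filter Topology Real

theorem fm_eq (w : ℂ) (θ : ℝ) : fm w θ = (w * Complex.exp ((-θ : ℝ) * Complex.I)).re := by
  rw [Complex.mul_re, Complex.exp_ofReal_mul_I_re, Complex.exp_ofReal_mul_I_im, cos_neg, sin_neg, fm]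
  ring

theorem fm_abs (w : ℂ) (θ : ℝ) : |fm w θ| ≤ ‖w‖ := by
  rw [fm_eq]
  refine (Complex.abs_re_le_norm _).trans_eq ?_
  rw [norm_mul, Complex.norm_exp_ofReal_mul_I, mul_one]

theorem fm_sum {ι : Type} (S : Finset ι) (v : ι → ℂ) (θ : ℝ) :
    fm (∑ p ∈ S, v p) θ = ∑ p ∈ S, fm (v p) θ := by
  simp only [fm, Complex.re_sum, Complex.im_sum, sum_mul, sum_add_distrib]

theorem fm_sub (a b : ℂ) (θ : ℝ) : fm (a - b) θ = fm a θ - fm b θ := by
  simp only [fm, Complex.sub_re, Complex.sub_im]; ring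

theorem zon {ι : Type} (A : Finset ι) (v : ι → ℂ) (w : ℂ) (E : ℝ) (hE : 0 ≤ E)
    (h : ∀ θ, fm w θ ≤ ∑ p ∈ A, max 0 (fm (v p) θ)) (hv : ∑ p ∈ A, ‖v p‖ ^ 2 ≤ 2 * E ^ 2) :
    ∃ S ⊆ A, ‖w - ∑ p ∈ S, v p‖ ≤ E := by
  classical
  obtain ⟨S, hS, hmin⟩ := exists_min_image A.powerset (fun S => ‖w - ∑ p ∈ S, v p‖) ⟨∅, by simp⟩
  rw [mem_powerset] at hS
  refine ⟨S, hS, ?_⟩
  set r := w - ∑ p ∈ S, v p with hr
  have e1 := Complex.norm_mul_cos_arg r
  have e2 := Complex.norm_mul_sin_arg r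
  have r0 := norm_nonneg r
  have e3 : ∀ x : ℂ, ‖r‖ * fm x r.arg = r.re * x.re + r.im * x.im := fun x => by
    rw [fm]; linear_combination x.re * e1 + x.im * e2
  have e4 : fm r r.arg = ‖r‖ := by
    rw [fm]
    nth_rewrite 1 [← e1, ← e2]
    linear_combination ‖r‖ * cos_sq_add_sin_sq r.arg
  have sq : ∀ x : ℂ, ‖r‖ ≤ ‖r - x‖ → 2 * (‖r‖ * fm x r.arg) ≤ ‖x‖ ^ 2 := fun x hx => by
    have := pow_le_pow_left₀ r0 hx 2
    rw [e3]
    simp only [Complex.sq_norm, Complex.normSq_apply, Complex.sub_re, Complex.sub_im] at this ⊢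
    nlinarith
  have k : ∀ p ∈ A, 2 * ‖r‖ * (max 0 (fm (v p) r.arg) - if p ∈ S then fm (v p) r.arg else 0)
      ≤ ‖v p‖ ^ 2 := fun p hp => by
    have n0 := sq_nonneg ‖v p‖
    split_ifs with hpS
    · have := hmin (S.erase p) (mem_powerset.2 ((erase_subset _ _).trans hS))
      rw [sum_erase_eq_sub hpS, show w - (∑ p ∈ S, v p - v p) = r - -v p by rw [hr]; ring] at this
      have h2 := sq _ this
      rw [norm_neg, show fm (-v p) r.arg = -fm (v p) r.arg by simp [fm]; ring] at h2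
      rcases le_total 0 (fm (v p) r.arg) with h3 | h3
      · rw [max_eq_right h3]; linarith
      · rw [max_eq_left h3]; linarith
    · have := hmin (insert p S) (mem_powerset.2 (insert_subset hp hS))
      rw [sum_insert hpS, show w - (v p + ∑ p ∈ S, v p) = r - v p by rw [hr]; ring] at this
      have h2 := sq _ this
      rcases le_total 0 (fm (v p) r.arg) with h3 | h3
      · rw [max_eq_right h3]; linarith
      · rw [max_eq_left h3]; linarith
  have k2 := sum_le_sum k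
  rw [← mul_sum, sum_sub_distrib, sum_ite_mem, inter_eq_right.2 hS, ← fm_sum] at k2
  have k3 := h r.arg
  rw [hr, fm_sub, ← hr] at e4
  refine abs_le_of_sq_le_sq' ?_ hE |>.2
  nlinarith

theorem loc {s : ℝ} (t θ : ℝ) (hs : 1 ≤ s) {p k : ℕ} (hp : 4 ≤ p) (hk : 1 ≤ k) :
    |fm (Complex.log (fk (zz s t p) k)) θ - (p : ℝ) ^ (-s) * cos (t * log p - θ)|
      ≤ 6 * ((p : ℝ) ^ (-s)) ^ 2 := by
  have h := norm_log_fk _ (zz_le_inv s t hs p 4 (by norm_num) (by exact_mod_cast hp)) k hk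
  rw [← re_zz, ← fm_eq, ← fm_sub, ← norm_zz s t p]
  exact (fm_abs _ _).trans h

theorem sq_sum {s : ℝ} (hs : 1 ≤ s) {a : ℕ} (ha : 1 ≤ a) (S : Finset ℕ) (hS : ∀ p ∈ S, a ≤ p) :
    ∑ p ∈ S, ((p : ℝ) ^ (-s)) ^ 2 ≤ exp (-((s - 1) * log a)) ^ 2 * (2 / a) := by
  obtain ⟨a, rfl⟩ := Nat.exists_eq_add_of_le' ha
  have h1 := sum_Ioo_inv_sq_le (α := ℝ) a (S.sup id + 1)
  have h2 : S ⊆ Ioo a (S.sup id + 1) := fun p hp =>
    mem_Ioo.2 ⟨hS p hp, Nat.lt_succ_of_le (le_sup (f := id) hp)⟩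
  rw [← Nat.cast_add_one] at h1
  refine le_trans ?_ (mul_le_mul_of_nonneg_left ((sum_le_sum_of_subset_of_nonneg h2
    fun _ _ _ => by positivity).trans h1) (by positivity))
  rw [mul_sum]
  refine sum_le_sum fun p hp => ?_
  have h3 : ((a + 1 : ℕ) : ℝ) ≤ p := by exact_mod_cast hS p hp
  have h4 : (0 : ℝ) < p := lt_of_lt_of_le (by positivity) h3
  rw [← inv_pow, ← mul_pow, rpow_def_of_pos h4, show log p * -s = -((s - 1) * log p) - log p by ring,
    exp_sub, exp_log h4, div_eq_mul_inv]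
  gcongr

theorem small_prime {s t θ : ℝ} (hs : 1 ≤ s) (ht : 0 ≤ t) (hθ : cos θ ≤ 0) {p : ℕ} (hp : p.Prime)
    (k : ℕ) (h : 8 * (t * log p) ≤ 1) : fm (Complex.log (fk (zz s t p) k)) θ ≤ 6 * (t * log p) := by
  have a0 : 0 ≤ t * log p := mul_nonneg ht (log_natCast_nonneg p)
  have r1 := rp_half hs hp
  have r0 : (0 : ℝ) ≤ (p : ℝ) ^ (-s) := by positivity
  have h1 := fk_lip (zz_half t hs hp) (w := (((p : ℝ) ^ (-s) : ℝ) : ℂ))
    (by rwa [Complex.norm_real, Real.norm_of_nonneg r0]) k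
  have h2 : ‖zz s t p - (((p : ℝ) ^ (-s) : ℝ) : ℂ)‖ ≤ t * log p := by
    have b : ‖((t * log p : ℝ) : ℂ) * Complex.I‖ = t * log p := by
      rw [norm_mul, Complex.norm_I, mul_one, Complex.norm_real, Real.norm_of_nonneg a0]
    have := Complex.norm_exp_sub_one_le (x := ((t * log p : ℝ) : ℂ) * Complex.I) (by linarith)
    rw [zz, ← mul_sub_one, norm_mul, Complex.norm_real, Real.norm_of_nonneg r0]
    nlinarith [norm_nonneg (Complex.exp (((t * log p : ℝ) : ℂ) * Complex.I) - 1)]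
  set x : ℝ := ∑ j ∈ range (k + 1), ((p : ℝ) ^ (-s)) ^ j with hx
  have h3 : fk (((p : ℝ) ^ (-s) : ℝ) : ℂ) k = (x : ℂ) := by
    rw [hx, fk, Complex.ofReal_sum]; simp only [Complex.ofReal_pow]
  have h4 : 1 ≤ x := by
    rw [hx, sum_range_succ', pow_zero]
    exact le_add_of_nonneg_left (sum_nonneg fun _ _ => by positivity)
  have x0 : (x : ℂ) ≠ 0 := by exact_mod_cast (by linarith : x ≠ 0)
  rw [h3] at h1
  set ζ := (fk (zz s t p) k - x) / x with hζ
  have h5 : ‖ζ‖ ≤ 4 * (t * log p) := by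
    rw [hζ, norm_div, Complex.norm_real, Real.norm_of_nonneg (by linarith)]
    exact (div_le_self (norm_nonneg _) h4).trans (by linarith)
  have h6 := Complex.norm_log_one_add_half_le_self (z := ζ) (by linarith)
  have h7 : 1 + ζ ≠ 0 := fun h0 => by
    rw [eq_neg_of_add_eq_zero_right h0, norm_neg, norm_one] at h5
    linarith
  have e : fk (zz s t p) k = x * (1 + ζ) := by rw [hζ]; field_simp; ring
  have h8 := (le_abs_self _).trans (fm_abs (Complex.log (1 + ζ)) θ)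
  rw [e, Complex.log_ofReal_mul (by linarith) h7]
  simp only [fm, Complex.add_re, Complex.add_im, Complex.ofReal_re, Complex.ofReal_im] at h8 ⊢
  nlinarith [log_nonneg h4]

theorem PL1 : ∃ C : ℝ, 0 ≤ C ∧ ∀ (s t θ : ℝ) (a b : ℕ), 1 ≤ s → s ≤ 2 → 0 < t → 3 ≤ a → a ≤ b →
    cos θ ≤ 0 → |∑ p ∈ (Ico a b).filter Nat.Prime, (p : ℝ) ^ (-s) * Fc θ (t * log p)
      - ∫ u in t * log a..t * log b, Gf ((s - 1) / t) (Fc θ) u| ≤ C * t := by
  obtain ⟨C, hC, h⟩ := PL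
  refine ⟨C * 2, by positivity, fun s t θ a b hs hs2 ht ha hab hθ => ?_⟩
  have hL := one_le_log ha
  refine (h s t 1 (Fc θ) a b hs hs2 ht ha hab (Fc_lip θ) zero_le_one le_rfl fun u hu => ?_).trans ?_
  · rw [abs_of_nonneg (Fc_nonneg _ _), one_mul]
    exact Fc_le_id hθ (le_trans (by positivity) hu)
  · have a1 : exp (-((s - 1) * log a)) ≤ 1 := exp_le_one_iff.2 (by nlinarith)
    have a2 : 1 / log a ≤ 1 := by rw [div_le_one (by linarith)]; exact hL
    calc _ ≤ C * (t * (1 * (1 + 1))) := by gcongr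
      _ = _ := by ring

theorem upper' (ε : ℝ) (hε : 0 < ε) : ∃ K : ℝ, ∀ s t : ℝ, 1 < s → s ≤ 2 → 0 < t → t * K ≤ 1 →
    ∀ (S : Finset ℕ) (k : ℕ → ℕ), (∀ p ∈ S, p.Prime ∧ 1 ≤ k p) → ∀ θ, cos θ ≤ 0 →
      fm (∑ p ∈ S, Complex.log (fk (zz s t p) (k p))) θ ≤ supp ((s - 1) / t) θ + ε := by
  obtain ⟨C, hC, h⟩ := PL1
  obtain ⟨P, hP⟩ := exists_nat_ge (max 4 (24 / ε))
  have P4 : (4 : ℝ) ≤ P := (le_max_left _ _).trans hP
  have P4' : 4 ≤ P := by exact_mod_cast P4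
  have P5 : 12 / (P : ℝ) ≤ ε / 2 := by
    have := (le_max_right _ _).trans hP
    rw [div_le_iff₀ hε] at this
    rw [div_le_iff₀ (by linarith)]; linarith
  refine ⟨8 * P + (6 * P * P + C) * 2 / ε, fun s t hs hs2 ht hK S k hk θ hθ => ?_⟩
  have K0 : 0 ≤ t * ((6 * P * P + C) * 2 / ε) := by positivity
  have K1 : t * (6 * P * P + C) ≤ ε / 2 := by
    have : t * ((6 * P * P + C) * 2 / ε) ≤ 1 := by nlinarith
    rw [← mul_div_assoc, div_le_one hε] at this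
    linarith
  have hl : 0 < (s - 1) / t := div_pos (by linarith) ht
  rw [fm_sum, ← sum_filter_add_sum_filter_not S (fun p => p < P)]
  have a1 : ∑ p ∈ S.filter (fun p => p < P), fm (Complex.log (fk (zz s t p) (k p))) θ
      ≤ P * (6 * (t * P)) := by
    refine (sum_le_card_nsmul _ _ (6 * (t * P)) fun p hp => ?_).trans ?_
    · obtain ⟨b1, b2⟩ := mem_filter.1 hp
      have b3 : t * log p ≤ t * P := mul_le_mul_of_nonneg_left
        ((log_le_self (Nat.cast_nonneg p)).trans (by exact_mod_cast b2.le)) ht.le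
      exact (small_prime hs.le ht.le hθ (hk p b1).1 _ (by nlinarith)).trans (by linarith)
    · rw [nsmul_eq_mul]
      gcongr
      exact (card_le_card fun p hp => mem_range.2 (mem_filter.1 hp).2).trans_eq (card_range P)
  have a2 : ∑ p ∈ S.filter (fun p => ¬ p < P), fm (Complex.log (fk (zz s t p) (k p))) θ
      ≤ ∑ p ∈ S.filter (fun p => ¬ p < P),
        ((p : ℝ) ^ (-s) * Fc θ (t * log p) + 6 * ((p : ℝ) ^ (-s)) ^ 2) := sum_le_sum fun p hp => by
    obtain ⟨b1, b2⟩ := mem_filter.1 hp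
    rw [Fc]
    linarith [(abs_le.1 (loc t θ hs.le (p := p) (by omega) (hk p b1).2)).2,
      mul_le_mul_of_nonneg_left (le_max_right 0 (cos (t * log p - θ)))
        (by positivity : (0 : ℝ) ≤ (p : ℝ) ^ (-s))]
  rw [sum_add_distrib, ← mul_sum] at a2
  have a3 := sq_sum hs.le (a := P) (by omega) (S.filter fun p => ¬ p < P)
    fun p hp => not_lt.1 (mem_filter.1 hp).2
  have a4 : exp (-((s - 1) * log P)) ^ 2 * (2 / P) ≤ 2 / P := mul_le_of_le_one_left (by positivity)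
    (pow_le_one₀ (exp_pos _).le (exp_le_one_iff.2 (by nlinarith [log_natCast_nonneg P])))
  have a5 : ∑ p ∈ S.filter (fun p => ¬ p < P), (p : ℝ) ^ (-s) * Fc θ (t * log p)
      ≤ ∑ p ∈ (Ico 3 (S.sup id + 3)).filter Nat.Prime, (p : ℝ) ^ (-s) * Fc θ (t * log p) :=
    sum_le_sum_of_subset_of_nonneg (fun p hp => by
      obtain ⟨b1, b2⟩ := mem_filter.1 hp
      have : p ≤ S.sup id := le_sup (f := id) b1
      exact mem_filter.2 ⟨mem_Ico.2 ⟨by omega, by omega⟩, (hk p b1).1⟩)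
      fun p _ _ => mul_nonneg (by positivity) (Fc_nonneg _ _)
  have a6 := (abs_le.1 (h s t θ 3 (S.sup id + 3) hs.le hs2 ht le_rfl (by omega) hθ)).2
  have l3 := one_le_log (n := 3) le_rfl
  have l4 : log ((3 : ℕ) : ℝ) ≤ log ((S.sup id + 3 : ℕ) : ℝ) :=
    log_le_log (by norm_num) (by exact_mod_cast Nat.le_add_left 3 _)
  have a7 := Gf_mono hl hθ le_rfl (by positivity : 0 ≤ t * log ((3 : ℕ) : ℝ))
    (mul_le_mul_of_nonneg_left l4 ht.le) le_rfl
  have a8 := (tail_supp hl hθ (U := t * log ((S.sup id + 3 : ℕ) : ℝ)) (by nlinarith)).1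
  have a9 : 12 / (P : ℝ) = 6 * (2 / P) := by ring
  linarith

/-- the integer at logarithmic position `φ / t` -/
noncomputable def NN (t φ : ℝ) : ℕ := ⌈exp (φ / t)⌉₊

theorem NN_spec {t φ : ℝ} (ht : 0 < t) (hφ : 0 ≤ φ) :
    exp (φ / t) ≤ NN t φ ∧ φ ≤ t * log (NN t φ) ∧ t * log (NN t φ) ≤ φ + t := by
  have h1 : exp (φ / t) ≤ NN t φ := Nat.le_ceil _
  have h0 := (exp_pos _).trans_le h1
  have h2 : (NN t φ : ℝ) < exp (φ / t) + 1 := Nat.ceil_lt_add_one (exp_pos _).le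
  have h3 : 1 ≤ exp (φ / t) := one_le_exp (by positivity)
  have h4 := (le_log_iff_exp_le h0).2 h1
  have h5 : log (NN t φ) ≤ φ / t + 1 := by
    rw [log_le_iff_le_exp h0, exp_add]
    nlinarith [add_one_le_exp (1 : ℝ)]
  rw [div_le_iff₀' ht] at h4
  refine ⟨h1, h4, (mul_le_mul_of_nonneg_left h5 ht.le).trans_eq (by field_simp)⟩

theorem NN_mono {t φ ψ : ℝ} (ht : 0 < t) (h : φ ≤ ψ) : NN t φ ≤ NN t ψ :=
  Nat.ceil_mono (exp_le_exp.2 (div_le_div_of_nonneg_right h ht.le))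

theorem supp_low {s : ℝ} (t θ : ℝ) (hs : 1 ≤ s) (A : Finset ℕ) (hA : ∀ p ∈ A, 4 ≤ p) :
    ∑ p ∈ A, (p : ℝ) ^ (-s) * Fc θ (t * log p) - 6 * ∑ p ∈ A, ((p : ℝ) ^ (-s)) ^ 2
      ≤ ∑ p ∈ A, max 0 (fm (Complex.log (fk (zz s t p) 1)) θ) := by
  rw [mul_sum, ← sum_sub_distrib]
  refine sum_le_sum fun p hp => ?_
  have h := (abs_le.1 (loc t θ hs (hA p hp) le_rfl)).1
  rw [Fc, mul_max_of_nonneg _ _ (by positivity), mul_zero, sub_le_iff_le_add]
  exact max_le (by positivity) (by linarith [le_max_right 0 (fm (Complex.log (fk (zz s t p) 1)) θ)])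

theorem norm_sq_sum {s : ℝ} (t : ℝ) (hs : 1 ≤ s) (A : Finset ℕ) (hA : ∀ p ∈ A, 6 ≤ p) :
    ∑ p ∈ A, ‖Complex.log (fk (zz s t p) 1)‖ ^ 2 ≤ 4 * ∑ p ∈ A, ((p : ℝ) ^ (-s)) ^ 2 := by
  rw [mul_sum]
  refine sum_le_sum fun p hp => ?_
  have h := norm_log_fk_le _ (zz_le_inv s t hs p 6 (by norm_num) (by exact_mod_cast hA p hp)) 1 le_rfl
  rw [norm_zz] at h
  exact (pow_le_pow_left₀ (norm_nonneg _) h 2).trans_eq (by ring)

/-- the radius that is filled from position `φ` on -/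
noncomputable def rr (Λ l φ : ℝ) : ℝ := exp (-(Λ * 9)) / 3 * (exp (-(l * φ)) / φ)

theorem window' (Λ : ℝ) : ∃ K : ℝ, ∀ s t φ : ℝ, 1 < s → s ≤ 2 → 0 < t → t ≤ 1 → t * K ≤ 1 →
    (s - 1) / t ≤ Λ → 8 ≤ φ → ∀ w : ℂ, ‖w‖ ≤ rr Λ ((s - 1) / t) φ →
      ∃ S ⊆ (Ico (NN t φ) (NN t (φ + 8))).filter Nat.Prime,
        ‖w - ∑ p ∈ S, Complex.log (fk (zz s t p) 1)‖ ≤ rr Λ ((s - 1) / t) (φ + 8) := by
  obtain ⟨C, hC, h⟩ := PL
  set κ := exp (-(Λ * 9)) with hκ
  have κ0 : 0 < κ := exp_pos _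
  refine ⟨(6 * C + 36) / κ + 24 / κ ^ 2, fun s t φ hs hs2 ht ht1 hK hΛ hφ w hw => ?_⟩
  have K1 : t * (6 * C + 36) ≤ κ := by
    have : t * ((6 * C + 36) / κ) ≤ 1 := by nlinarith [show 0 ≤ t * (24 / κ ^ 2) by positivity]
    rwa [← mul_div_assoc, div_le_one κ0] at this
  have K2 : t * 24 ≤ κ ^ 2 := by
    have : t * (24 / κ ^ 2) ≤ 1 := by nlinarith [show 0 ≤ t * ((6 * C + 36) / κ) by positivity]
    rwa [← mul_div_assoc, div_le_one (by positivity)] at this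
  set l := (s - 1) / t with hl
  have hl0 : 0 < l := div_pos (by linarith) ht
  have φ0 : 0 < φ := by linarith
  obtain ⟨n1, n2, n3⟩ := NN_spec ht φ0.le
  obtain ⟨-, m2, m3⟩ := NN_spec ht (by linarith : 0 ≤ φ + 8)
  have hab := NN_mono ht (by linarith : φ ≤ φ + 8)
  set a := NN t φ
  set b := NN t (φ + 8)
  have x8 : 8 ≤ φ / t := by rw [le_div_iff₀ ht]; linarith
  have n4 := (quadratic_le_exp_of_nonneg (by linarith : 0 ≤ φ / t)).trans n1
  have a6 : 6 ≤ a := by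
    have : (6 : ℝ) ≤ a := by nlinarith
    exact_mod_cast this
  have a0 : (0 : ℝ) < a := by positivity
  have hA : ∀ p ∈ (Ico a b).filter Nat.Prime, a ≤ p := fun p hp => (mem_Ico.1 (mem_filter.1 hp).1).1
  set e := exp (-(l * φ)) with he
  have e0 : 0 < e := exp_pos _
  have e1 : e ≤ 1 := exp_le_one_iff.2 (by nlinarith)
  have e2 : exp (-((s - 1) * log a)) ≤ e := exp_le_exp.2 (by
    have := mul_le_mul_of_nonneg_left n2 hl0.le
    rw [hl, ← mul_assoc, div_mul_cancel₀ _ ht.ne'] at this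
    linarith)
  have e3 : ∀ d : ℝ, 0 ≤ d → d ≤ 9 → κ * e ≤ exp (-(l * (φ + d))) := fun d d0 d9 => by
    rw [hκ, he, ← exp_add, exp_le_exp]; nlinarith
  have s1 := (sq_sum hs.le (by omega) _ hA).trans (mul_le_mul_of_nonneg_right
    (pow_le_pow_left₀ (exp_pos _).le e2 2) (by positivity))
  have i1 : 1 / (a : ℝ) ≤ t / φ := by
    rw [← one_div_div φ t]; exact one_div_le_one_div_of_le (by linarith) (by nlinarith)
  have i2 : 1 / (a : ℝ) ≤ 4 * (t / φ) ^ 2 := by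
    rw [← one_div_div φ t, one_div_pow, mul_one_div, div_le_div_iff₀ a0 (by positivity)]
    nlinarith
  refine (zon ((Ico a b).filter Nat.Prime) (fun p => Complex.log (fk (zz s t p) 1)) w
    (4 * t * (e / φ)) (by positivity) (fun θ => ?_) ?_).imp fun S hS => ⟨hS.1, hS.2.trans ?_⟩
  rotate_right
  · have b1 : κ * e / (2 * φ) ≤ exp (-(l * (φ + 8))) / (φ + 8) :=
      div_le_div₀ (exp_pos _).le (e3 8 (by norm_num) (by norm_num)) (by linarith) (by linarith)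
    calc 4 * t * (e / φ) = t * 24 * (e / φ / 6) := by ring
      _ ≤ κ ^ 2 * (e / φ / 6) := by gcongr
      _ = κ / 3 * (κ * e / (2 * φ)) := by field_simp; ring
      _ ≤ _ := by unfold rr; gcongr
  · have b1 := supp_low t θ hs.le _ fun p hp => (by omega : 4 ≤ a).trans (hA p hp)
    have b2 := (abs_le.1 (h s t (1 / φ) (Fc θ) a b hs.le hs2 ht (by omega) hab (Fc_lip θ)
      (by positivity) (by rw [div_le_one φ0]; linarith) fun u hu => by
        rw [abs_of_nonneg (Fc_nonneg _ _), one_div_mul_eq_div]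
        exact (Fc_le _ _).trans ((one_le_div φ0).2 (by linarith)))).1
    have b3 := win hl0.le θ (a := t * log a) (b := t * log b) (Y := φ + 9) (by linarith)
      (by linarith [pi_lt_d2]) (by linarith)
    have b4 : κ * e / (3 * φ) ≤ exp (-(l * (φ + 9))) / (φ + 9) :=
      div_le_div₀ (exp_pos _).le (e3 9 (by norm_num) le_rfl) (by linarith) (by linarith)
    have b5 : C * (t * (exp (-((s - 1) * log a)) * (1 / log a + 1 / φ)))
        ≤ C * (t * (e * (1 / φ + 1 / φ))) := by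
      have L1 := one_le_log (n := a) (by omega)
      have : φ ≤ log a := by nlinarith
      gcongr
    have b6 : e ^ 2 * (2 / a) ≤ 2 * t * (e / φ) := by
      calc e ^ 2 * (2 / a) = 2 * (e * e) * (1 / a) := by ring
        _ ≤ 2 * (e * 1) * (t / φ) := by gcongr
        _ = _ := by ring
    have b7 := mul_le_mul_of_nonneg_right K1 (by positivity : 0 ≤ e / φ / 3)
    have b8 := ((le_abs_self _).trans (fm_abs w θ)).trans hw
    have q1 : κ * e / (3 * φ) = κ * (e / φ) / 3 := by field_simp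
    have q2 : C * (t * (e * (1 / φ + 1 / φ))) = 2 * C * t * (e / φ) := by ring
    have q3 : rr Λ l φ = κ * (e / φ) / 3 := by unfold rr; ring
    linarith
  · refine (norm_sq_sum t hs.le _ fun p hp => a6.trans (hA p hp)).trans ?_
    calc _ ≤ 4 * (e ^ 2 * (2 / a)) := by linarith
      _ = 8 * e ^ 2 * (1 / a) := by ring
      _ ≤ 8 * e ^ 2 * (4 * (t / φ) ^ 2) := by gcongr
      _ = _ := by ring

end Pool.Agent.Lib.MP_3ba922_nt.SB
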