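import Pool.Agent.Lib.MP_3ba922_nt.SB.Cor3

/-! The lower bound and the limit near the corner `c = -1`. -/

set_option autoImplicit false

namespace Pool.Agent.Lib.MP_3ba922_nt.SB

open Finset Filter Topology Real

theorem ev_small (K : ℝ) : ∀ᶠ q : ℝ × ℝ in 𝓝 (1, 0), q.2 * K ≤ 1 :=
  (((by fun_prop : Continuous fun q : ℝ × ℝ => q.2 * K).tendsto (1, 0)).eventually
    (ge_mem_nhds (by simp)))

theorem ev_two : ∀ᶠ q : ℝ × ℝ in 𝓝 (1, 0), q.1 ≤ 2 :=
  (continuous_fst.tendsto ((1, 0) : ℝ × ℝ)).eventually (ge_mem_nhds one_lt_two)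

theorem big_mass (P : ℕ) (X : ℝ) : ∃ P' : ℕ, P ≤ P' ∧ ∀ᶠ q : ℝ × ℝ in 𝓝 (1, 0),
    X ≤ ∑ p ∈ (Ico P P').filter Nat.Prime, (p : ℝ) ^ (-q.1) * cos (q.2 * log p) := by
  have h := (not_summable_iff_tendsto_nat_atTop_of_nonneg fun n =>
    Set.indicator_nonneg (fun _ _ => by positivity) n).1 not_summable_one_div_on_primes
  obtain ⟨P', h1, h2⟩ := ((h.eventually_gt_atTop (X + ∑ n ∈ range P,
    Set.indicator {p | p.Prime} (fun n : ℕ => (1 : ℝ) / n) n)).and (eventually_ge_atTop P)).exists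
  refine ⟨P', h2, ?_⟩
  have c : Continuous fun q : ℝ × ℝ =>
      ∑ p ∈ (Ico P P').filter Nat.Prime, (p : ℝ) ^ (-q.1) * cos (q.2 * log p) :=
    continuous_finsetSum _ fun p hp => ((continuous_const_rpow
      (by exact_mod_cast (mem_filter.1 hp).2.ne_zero)).comp (by fun_prop)).mul (by fun_prop)
  refine (c.tendsto (1, 0)).eventually (le_mem_nhds ?_)
  rw [← sum_range_add_sum_Ico _ h2, add_comm X, add_lt_add_iff_left] at h1
  refine h1.trans_eq ?_
  rw [sum_filter]
  refine sum_congr rfl fun n _ => ?_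
  simp [Set.indicator_apply, rpow_neg_one]

theorem right_dir {θ : ℝ} : ∃ θ' : ℝ, cos θ' = 0 ∧ sin θ' ^ 2 = 1 ∧ 0 ≤ sin θ' * sin θ := by
  rcases le_total 0 (sin θ) with h | h
  · exact ⟨π / 2, by simp, by simp, by simpa using h⟩
  · exact ⟨-(π / 2), by simp, by simp, by simpa using h⟩

theorem pt_right {θ θ' : ℝ} (hc : 0 ≤ cos θ) (h0 : cos θ' = 0) (h1 : sin θ' ^ 2 = 1)
    (h2 : 0 ≤ sin θ' * sin θ) {u : ℝ} (hu : 0 ≤ u) (P : Prop) [Decidable P] :
    (if P then cos θ * cos u - sin θ' * sin θ * u else 0) - cos θ * Fc π u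
      + sin θ' * sin θ * Fc θ' u ≤ Fc θ u := by
  have e : cos (u - θ) = cos θ * cos u + sin θ' * sin θ * (sin u * sin θ') := by
    rw [cos_sub]; linear_combination -(sin u * sin θ) * h1
  have a1 := mul_nonneg hc (Fc_nonneg π u)
  have a2 : -cos u ≤ Fc π u := by rw [Fc, cos_sub_pi]; exact le_max_right _ _
  have a3 := mul_le_mul_of_nonneg_left a2 hc
  have a4 := Fc_nonneg θ u
  have a5 : cos (u - θ) ≤ Fc θ u := le_max_right _ _
  have a6 : |sin u * sin θ'| ≤ u := by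
    rw [abs_mul]
    exact (mul_le_of_le_one_right (abs_nonneg _) (abs_sin_le_one _)).trans
      (abs_sin_le_abs.trans_eq (abs_of_nonneg hu))
  have a7 := mul_le_mul_of_nonneg_left (abs_le.1 a6).1 h2
  have a8 := mul_nonneg h2 hu
  rw [Fc.eq_def θ', cos_sub u θ', h0, mul_zero, zero_add]
  rcases le_total 0 (sin u * sin θ') with h | h
  · rw [max_eq_right h]; split_ifs <;> linarith
  · rw [max_eq_left h]; split_ifs <;> linarith

theorem lower' (Λ B ε : ℝ) (hε : 0 < ε) (hε1 : ε ≤ 1) : ∀ᶠ q : ℝ × ℝ in 𝓝 (1, 0), 1 < q.1 → 0 < q.2 →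
    (q.1 - 1) / q.2 ≤ Λ → ∀ w : ℂ, ‖w‖ ≤ B →
    (∀ θ, cos θ ≤ 0 → fm w θ + ε ≤ supp ((q.1 - 1) / q.2) θ) →
    Complex.exp w ∈ closure (sigmaC ((-q.1 : ℝ) + (q.2 : ℝ) * Complex.I) '' {n | 1 ≤ n}) := by
  obtain ⟨C, hC, hPL⟩ := PL1
  obtain ⟨K, hK⟩ := window' Λ
  obtain ⟨U, hU, hT⟩ := trunc (B + 1) (ε / 2) (by linarith)
  have ρ0 : 0 < rr Λ Λ U := by unfold rr; have : 0 < U := by linarith
                               positivity
  obtain ⟨P, hP⟩ := exists_nat_ge (6 + 4 / rr Λ Λ U ^ 2 + 48 / ε)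
  have q1 : 0 < 4 / rr Λ Λ U ^ 2 := by positivity
  have q2 : 0 < 48 / ε := by positivity
  have P6 : 6 ≤ P := by exact_mod_cast (by linarith : (6 : ℝ) ≤ P)
  have P0 : (0 : ℝ) < P := by linarith
  have P1 : 4 * (2 / (P : ℝ)) ≤ 2 * rr Λ Λ U ^ 2 := by
    have : 4 / rr Λ Λ U ^ 2 ≤ P := by linarith
    rw [div_le_iff₀ (by positivity)] at this
    rw [← mul_div_assoc, div_le_iff₀ P0]; linarith
  have P2 : 6 * (2 / (P : ℝ)) ≤ ε / 4 := by
    have : 48 / ε ≤ P := by linarith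
    rw [div_le_iff₀ hε] at this
    rw [← mul_div_assoc, div_le_iff₀ P0]; linarith
  obtain ⟨P', hP', hX⟩ := big_mass P (B + U + 4)
  have P3 : (P : ℝ) ≤ P' := by exact_mod_cast hP'
  filter_upwards [hX, ev_small K, ev_small 1, ev_two, ev_small ((P' * P' + P' + C) * 8 / ε)]
    with ⟨s, t⟩ hX k1 k2 k3 k4 hs ht hΛ w hw hsup
  simp only at *
  rw [mul_one] at k2
  rw [← mul_div_assoc, div_le_one hε] at k4
  set l := (s - 1) / t with hl
  have hl0 : 0 < l := div_pos (by linarith) ht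
  have z1 : 0 ≤ t * (P' * P') := by positivity
  have z2 : 0 ≤ t * P' := by positivity
  have z3 : 0 ≤ t * C := by positivity
  obtain ⟨n1, n2, n3⟩ := NN_spec ht (by linarith : 0 ≤ U)
  have n4 : P' ≤ NN t U := by
    have : (P' : ℝ) ≤ U / t := by rw [le_div_iff₀ ht]; linarith
    exact_mod_cast (by linarith [add_one_le_exp (U / t)] : (P' : ℝ) ≤ NN t U)
  set A := (Ico P (NN t U)).filter Nat.Prime with hA
  have hA1 : ∀ p ∈ A, P ≤ p := fun p hp => (mem_Ico.1 (mem_filter.1 hp).1).1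
  set T : ℝ → ℝ := fun θ => ∑ p ∈ A, (p : ℝ) ^ (-s) * Fc θ (t * log p) with hTd
  have L0 : 0 ≤ t * log P := mul_nonneg ht.le (log_natCast_nonneg P)
  have L1 : t * log P ≤ t * P' :=
    mul_le_mul_of_nonneg_left ((log_le_self P0.le).trans P3) ht.le
  have L2 : t * log P ≤ t * log (NN t U) := by linarith
  have left : ∀ θ, cos θ ≤ 0 → fm w θ + 3 * ε / 8 ≤ T θ ∧ T θ ≤ U + 2 := fun θ hθ => by
    have a1 := abs_le.1 (hPL s t θ P (NN t U) hs.le k3 ht (by omega) (hP'.trans n4) hθ)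
    have a2 := (Gf_mono hl0 hθ le_rfl le_rfl (by linarith : 0 ≤ U) n2).trans_eq
      (intervalIntegral.integral_add_adjacent_intervals (ii0 (Gf_int hl0 hθ) le_rfl L0)
        (ii0 (Gf_int hl0 hθ) L0 L2)).symm
    have a3 := small_le hl0 hθ le_rfl L0
    have a4 := small_le hl0 hθ L0 L2
    have a5 : fm w θ + ε / 2 ≤ min (supp l θ - ε / 2) (B + 1) :=
      le_min (by linarith [hsup θ hθ]) (by linarith [le_abs_self (fm w θ), fm_abs w θ])
    have a6 := hT l θ hl0 hθ
    constructor <;> linarith [a1.1, a1.2]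
  have all : ∀ θ, fm w θ + ε / 4 ≤ T θ := fun θ => by
    rcases le_total (cos θ) 0 with hθ | hθ
    · linarith [(left θ hθ).1]
    obtain ⟨θ', h0, h1, h2⟩ := right_dir (θ := θ)
    have hsub : (Ico P P').filter Nat.Prime ⊆ A :=
      filter_subset_filter _ (Ico_subset_Ico_right n4)
    have a1 := sum_le_sum fun p (_ : p ∈ A) => mul_le_mul_of_nonneg_left (pt_right hθ h0 h1 h2
      (mul_nonneg ht.le (log_natCast_nonneg p)) (p ∈ (Ico P P').filter Nat.Prime))
      (by positivity : (0 : ℝ) ≤ (p : ℝ) ^ (-s))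
    simp only [mul_add, mul_sub, sum_add_distrib, sum_sub_distrib, mul_ite, mul_zero, sum_ite_mem,
      inter_eq_right.2 hsub, mul_left_comm _ (cos θ), mul_left_comm _ (sin θ' * sin θ),
      ← mul_sum] at a1
    have a2 : ∑ p ∈ (Ico P P').filter Nat.Prime, (p : ℝ) ^ (-s) * (t * log p) ≤ t * (P' * P') := by
      refine (sum_le_card_nsmul _ _ (t * P') fun p hp => ?_).trans ?_
      · obtain ⟨b1, b2⟩ := mem_filter.1 hp
        refine (mul_le_of_le_one_left (mul_nonneg ht.le (log_natCast_nonneg p))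
          ((rp_half hs.le b2).trans (by norm_num))).trans (mul_le_mul_of_nonneg_left
          ((log_le_self (Nat.cast_nonneg p)).trans ?_) ht.le)
        exact_mod_cast (mem_Ico.1 b1).2.le
      · rw [nsmul_eq_mul, mul_left_comm]
        gcongr
        exact (card_filter_le _ _).trans (by simp)
    have a3 := (left π (by simp)).2
    have a4 := (left θ' h0.le).1
    have a5 : 1 ≤ cos θ + sin θ' * sin θ := by
      refine abs_le_of_sq_le_sq' ?_ (by linarith) |>.2
      nlinarith [mul_nonneg hθ h2, cos_sq_add_sin_sq θ]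
    have a6 := (le_abs_self _).trans ((Complex.abs_re_le_norm w).trans hw)
    have a7 : fm w θ = cos θ * w.re + sin θ' * sin θ * fm w θ' := by
      rw [fm, fm, h0]; linear_combination -(w.im * sin θ) * h1
    have a8 := mul_le_mul_of_nonneg_left (show w.re + ε / 4 ≤
      ∑ p ∈ (Ico P P').filter Nat.Prime, (p : ℝ) ^ (-s) * cos (t * log p) - T π by linarith) hθ
    have a9 := mul_le_mul_of_nonneg_left (show fm w θ' + ε / 4 ≤ T θ'
      - ∑ p ∈ (Ico P P').filter Nat.Prime, (p : ℝ) ^ (-s) * (t * log p) by linarith) h2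
    have a10 := mul_le_mul_of_nonneg_right a5 (by linarith : 0 ≤ ε / 4)
    simp only [hTd] at a8 a9 ⊢
    linarith
  have s1 := (sq_sum hs.le (by omega) A hA1).trans (mul_le_of_le_one_left (by positivity)
    (pow_le_one₀ (exp_pos _).le (exp_le_one_iff.2 (by nlinarith [log_natCast_nonneg P]))))
  obtain ⟨S0, hS0, h0⟩ := zon A (fun p => Complex.log (fk (zz s t p) 1)) w (rr Λ Λ U) ρ0.le
    (fun θ => by
      have := supp_low t θ hs.le A fun p hp => (by omega : 4 ≤ P).trans (hA1 p hp)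
      linarith [all θ])
    (by linarith [norm_sq_sum t hs.le A fun p hp => P6.trans (hA1 p hp)])
  have r1 : rr Λ Λ U ≤ rr Λ l (U + 8 * (0 : ℕ)) := by
    unfold rr
    rw [Nat.cast_zero, mul_zero, add_zero]
    gcongr
  have mono : ∀ {i j : ℕ}, i ≤ j → NN t (U + 8 * i) ≤ NN t (U + 8 * j) := fun h =>
    NN_mono ht (by gcongr)
  have key := fill (fun j : ℕ => (Ico (NN t (U + 8 * j)) (NN t (U + 8 * (j + 1 : ℕ)))).filter Nat.Prime)
    (fun i j hij => by
      wlog hlt : i < j generalizing i j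
      · exact (this j i hij.symm (by omega)).symm
      refine disjoint_left.2 fun p h1 h2 => ?_
      have := (mem_Ico.1 (mem_filter.1 h1).1).2
      have := (mem_Ico.1 (mem_filter.1 h2).1).1
      have := mono (show i + 1 ≤ j from hlt)
      omega)
    (fun p => Complex.log (fk (zz s t p) 1)) (fun j => rr Λ l (U + 8 * j)) (fun j w hw => by
      have := hK s t (U + 8 * j) hs k3 ht k2 k1 hΛ (by linarith [show (0 : ℝ) ≤ j by positivity]) w hw
      rwa [show U + 8 * j + 8 = U + 8 * (j + 1 : ℕ) by push_cast; ring] at this) _ (h0.trans r1)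
  have lim : Tendsto (fun j : ℕ => rr Λ l (U + 8 * j)) atTop (𝓝 0) := by
    refine squeeze_zero (fun j => ?_) (fun j => ?_) ((tendsto_atTop_add_const_left _ U
      (tendsto_natCast_atTop_atTop.const_mul_atTop (by norm_num : (0 : ℝ) < 8))).const_div_atTop
      (exp (-(Λ * 9)) / 3))
    · have : 0 < U := by linarith
      unfold rr; positivity
    · have : 0 < U + 8 * j := by linarith [show (0 : ℝ) ≤ j by positivity]
      unfold rr
      rw [← mul_div_assoc]
      exact div_le_div_of_nonneg_right (mul_le_of_le_one_right (by positivity)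
        (exp_le_one_iff.2 (by nlinarith))) this.le
  rw [show w = ∑ p ∈ S0, Complex.log (fk (zz s t p) 1)
    + (w - ∑ p ∈ S0, Complex.log (fk (zz s t p) 1)) by ring, Complex.exp_add]
  refine mem_closure_of_fill _ _ _ _ lim fun j => ?_
  obtain ⟨S, hS, h1⟩ := key j
  have hS' : ∀ p ∈ S, p.Prime ∧ NN t U ≤ p := fun p hp => by
    obtain ⟨i, -, hi⟩ := hS p hp
    have := mono (Nat.zero_le i)
    rw [Nat.cast_zero, mul_zero, add_zero] at this
    exact ⟨(mem_filter.1 hi).2, this.trans (mem_Ico.1 (mem_filter.1 hi).1).1⟩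
  have hpr : ∀ p ∈ S0 ∪ S, p.Prime ∧ 4 ≤ p := fun p hp => by
    rcases mem_union.1 hp with h | h
    · exact ⟨(mem_filter.1 (hS0 h)).2, by have := hA1 p (hS0 h); omega⟩
    · exact ⟨(hS' p h).1, by have := (hS' p h).2; omega⟩
  refine ⟨_, ?_, h1⟩
  rw [← Complex.exp_add, ← sum_union (disjoint_left.2 fun p h1 h2 =>
    absurd (mem_Ico.1 (mem_filter.1 (hS0 h1)).1).2 (not_lt.2 (hS' p h2).2)),
    ← exp_sum_log s t _ (fun _ => 1) fun p hp => norm_zz s t p ▸
      zz_le_inv s t hs.le p 4 (by norm_num) (by exact_mod_cast (hpr p hp).2)]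
  exact prod_mem' s t _ (fun p hp => (hpr p hp).1) _

theorem fm_log (z : ℂ) (θ : ℝ) :
    fm (Complex.log z) θ = Real.log ‖z‖ * cos θ + Complex.arg z * sin θ := by
  rw [fm, Complex.log_re, Complex.log_im]

theorem re_pos {R : ℝ} (hR : R ≤ 1) {z : ℂ} (hz : z ∈ Metric.ball (1 : ℂ) R) : 0 < z.re := by
  rw [mem_ball_iff_norm] at hz
  have := (abs_le.1 (Complex.abs_re_le_norm (z - 1))).1
  rw [Complex.sub_re, Complex.one_re] at this
  linarith

theorem rad_le (ε : ℝ) (hε : 0 < ε) (hε1 : ε ≤ 1) : ∀ᶠ q : ℝ × ℝ in 𝓝 (1, 0), 1 < q.1 → 0 < q.2 →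
    rad ((-q.1 : ℝ) + (q.2 : ℝ) * Complex.I) ≤ prof ((q.1 - 1) / q.2) + 4 * ε := by
  obtain ⟨K, hK⟩ := upper' ε hε
  filter_upwards [ev_small K, ev_two] with ⟨s, t⟩ k1 k2 hs ht
  simp only at *
  have hl : 0 < (s - 1) / t := div_pos (by linarith) ht
  have p0 : 0 ≤ prof ((s - 1) / t) := Real.sSup_nonneg fun R hR => hR.1
  refine Real.sSup_le (fun R hR => ?_) (by linarith)
  have h0 := (log_low s t hs).1
  have hR1 : R ≤ 1 := by linarith [ball_le _ h0 R hR.2]
  rcases le_total R (4 * ε) with h | h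
  · linarith
  refine sub_le_iff_le_add.1 (le_csSup ⟨1, fun R hR => hR.2.1⟩
    ⟨by linarith, by linarith, fun z hz θ hθ => ?_⟩)
  obtain ⟨z', hz', e⟩ := shift hR1 hε hε1 hz θ
  have z0 := re_pos hR1 hz'
  rw [← fm_log]
  suffices fm (Complex.log z') θ ≤ supp ((s - 1) / t) θ + ε by linarith
  obtain ⟨x, hx, lim⟩ := mem_closure_iff_seq_limit.1 (hR.2 hz')
  have c : Continuous fun w => fm w θ := by unfold fm; fun_prop
  refine le_of_tendsto ((c.tendsto _).comp (lim.clog (Or.inl z0))) ?_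
  filter_upwards [((Complex.continuous_re.tendsto _).comp lim).eventually (lt_mem_nhds z0)] with n hn
  obtain ⟨S, k, hk, e⟩ := exists_prod' s t _ (hx n)
  have e2 : x n = Complex.exp (∑ p ∈ S, Complex.log (fk (zz s t p) (k p))) := by
    rw [e, Complex.exp_sum]
    exact prod_congr rfl fun p hp => (Complex.exp_log (norm_pos_iff.1 (lt_of_lt_of_le (by norm_num)
      (third_le_fk _ (zz_half t hs.le (hk p hp).1) _)))).symm
  simp only [Function.comp] at hn ⊢
  rw [e2] at hn ⊢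
  exact translate hl (hK s t hs k2 ht k1 S k hk) hn θ hθ

theorem le_rad (ε : ℝ) (hε : 0 < ε) (hε1 : ε ≤ 1) : ∀ᶠ q : ℝ × ℝ in 𝓝 (1, 0), 1 < q.1 → 0 < q.2 →
    prof ((q.1 - 1) / q.2) ≤ rad ((-q.1 : ℝ) + (q.2 : ℝ) * Complex.I) + 4 * ε := by
  filter_upwards [lower' (1 / ε) (|log (4 * ε)| + 1 + π) ε hε hε1] with ⟨s, t⟩ h hs ht
  simp only at *
  have hl : 0 < (s - 1) / t := div_pos (by linarith) ht
  have p0 : 0 ≤ rad ((-s : ℝ) + (t : ℝ) * Complex.I) := Real.sSup_nonneg fun R hR => hR.1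
  refine Real.sSup_le (fun R hR => ?_) (by linarith)
  rcases le_total R (4 * ε) with h4 | h4
  · linarith
  have hΛ : (s - 1) / t ≤ 1 / ε := by
    have a1 := hR.2.2 ((1 - ε : ℝ) : ℂ) (by
      rw [mem_ball_iff_norm, Complex.ofReal_sub, Complex.ofReal_one, sub_sub_cancel_left, norm_neg,
        Complex.norm_real, Real.norm_of_nonneg hε.le]; linarith) π (by simp)
    have a2 := supp_le hl (θ := π) (by simp)
    have a3 : 0 < 1 - ε := by linarith [hR.2.1]
    rw [cos_pi, sin_pi, Complex.norm_real, Real.norm_of_nonneg a3.le] at a1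
    exact (le_one_div hε hl).1 (by linarith [log_le_sub_one_of_pos a3])
  refine sub_le_iff_le_add.1 (le_csSup ⟨_, fun R hR => ball_le _ (log_low s t hs).1 R hR.2⟩
    ⟨by linarith, fun z hz => ?_⟩)
  have z0 := re_pos (by linarith [hR.2.1]) hz
  have z1 : z ≠ 0 := fun h => by simp [h] at z0
  rw [← Complex.exp_log z1]
  refine h hs ht hΛ _ ?_ fun θ hθ => ?_
  · rw [mem_ball_iff_norm] at hz
    have a1 := norm_sub_norm_le z 1
    have a2 := norm_sub_norm_le 1 z
    rw [norm_one] at a1 a2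
    rw [norm_sub_rev] at a2
    have a3 := log_le_log (by linarith : 0 < 4 * ε) (by linarith [hR.2.1] : 4 * ε ≤ ‖z‖)
    have a4 := log_le_sub_one_of_pos (norm_pos_iff.2 z1)
    refine (Complex.norm_le_abs_re_add_abs_im _).trans ?_
    rw [Complex.log_re, Complex.log_im]
    exact add_le_add (abs_le.2 ⟨by linarith [neg_abs_le (log (4 * ε))],
      by linarith [abs_nonneg (log (4 * ε)), hR.2.1]⟩) (Complex.abs_arg_le_pi z)
  · obtain ⟨z', hz', e⟩ := shift hR.2.1 hε hε1 hz θ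
    rw [← e, fm_log]
    exact hR.2.2 z' hz' θ hθ

theorem corner : Tendsto (fun q : ℝ × ℝ => rad ((-q.1 : ℝ) + (q.2 : ℝ) * Complex.I)
    - prof ((q.1 - 1) / q.2)) (𝓝[{q | 1 < q.1 ∧ 0 < q.2}] (1, 0)) (𝓝 0) := by
  refine Metric.tendsto_nhds.2 fun ε hε => ?_
  have h1 : 0 < min (ε / 5) 1 := lt_min (by linarith) one_pos
  filter_upwards [self_mem_nhdsWithin,
    (rad_le _ h1 (min_le_right _ _)).filter_mono nhdsWithin_le_nhds,
    (le_rad _ h1 (min_le_right _ _)).filter_mono nhdsWithin_le_nhds] with q hq a b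
  rw [Real.dist_eq, sub_zero, abs_lt]
  constructor <;> linarith [a hq.1 hq.2, b hq.1 hq.2, min_le_left (ε / 5) 1]

theorem prof_range {l : ℝ} (hl : 0 < l) : 0 < prof l ∧ prof l < 1 := by
  have e0 := exp_pos (-(l * 8))
  have e1 : exp (-(l * 8)) ≤ 1 := exp_le_one_iff.2 (by linarith)
  constructor
  · refine lt_of_lt_of_le (by positivity : 0 < exp (-(l * 8)) / 8) (le_csSup
      ⟨1, fun R hR => hR.2.1⟩ ⟨by positivity, by linarith, fun z hz θ hθ => ?_⟩)
    rw [mem_ball_iff_norm] at hz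
    have a1 := Complex.norm_log_one_add_half_le_self (z := z - 1) (by linarith)
    rw [add_sub_cancel] at a1
    have a2 := win hl.le θ (a := 1) (b := 8) (Y := 8) one_pos (by linarith [pi_lt_d2]) le_rfl
    have a3 := Gf_mono hl hθ le_rfl zero_le_one (by norm_num : (1 : ℝ) ≤ 8) le_rfl
    have a4 := (tail_supp hl hθ (by norm_num : (0 : ℝ) < 8)).1
    rw [← fm_log]
    linarith [le_abs_self (fm (Complex.log z) θ), fm_abs (Complex.log z) θ]
  · have e2 := exp_pos (-(1 / l))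
    have e3 : exp (-(1 / l)) ≤ 1 := exp_le_one_iff.2 (by simpa using hl.le)
    refine lt_of_le_of_lt (Real.sSup_le (fun R hR => le_of_forall_lt_imp_le_of_dense fun r hr => ?_)
      (by linarith : 0 ≤ 1 - exp (-(1 / l)))) (by linarith)
    rcases le_total r 0 with h | h
    · linarith
    have a1 := hR.2.2 ((1 - r : ℝ) : ℂ) (by
      rw [mem_ball_iff_norm, Complex.ofReal_sub, Complex.ofReal_one, sub_sub_cancel_left, norm_neg,
        Complex.norm_real, Real.norm_of_nonneg h]; exact hr) π (by simp)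
    have a2 := supp_le hl (θ := π) (by simp)
    have a3 : 0 < 1 - r := by linarith [hR.2.1]
    rw [cos_pi, sin_pi, Complex.norm_real, Real.norm_of_nonneg a3.le] at a1
    linarith [(le_log_iff_exp_le a3).1 (by linarith : -(1 / l) ≤ log (1 - r))]

end Pool.Agent.Lib.MP_3ba922_nt.SB
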