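import Mathlib

set_option autoImplicit false

namespace Pool.Agent.Lib.MP_3ba922_nt.SB

/-- the support function of the limiting convex set, in the direction of angle `θ` -/
noncomputable def supp (l θ : ℝ) : ℝ :=
  ∫ u in Set.Ioi (0 : ℝ), max 0 (Real.cos (u - θ)) * Real.exp (-(l * u)) / u

/-- the limiting profile of the radius -/
noncomputable def prof (l : ℝ) : ℝ :=
  sSup {R : ℝ | 0 ≤ R ∧ R ≤ 1 ∧ ∀ z ∈ Metric.ball (1 : ℂ) R, ∀ θ : ℝ, Real.cos θ ≤ 0 →
    Real.log ‖z‖ * Real.cos θ + Complex.arg z * Real.sin θ ≤ supp l θ}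

end Pool.Agent.Lib.MP_3ba922_nt.SB
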